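import Pool.Agent.Run7.h742.UN.Main

/-!
# The final form of the uniform theorem (helper742)
-/

set_option autoImplicit false

namespace Run7.h742.UN

open Polynomial Pool.Agent.TH910.Voj

/-- the exceptional integers -/
def Exc {r : ℕ} (f : Fin r → ℤ[X]) (η θ : ℝ) (B : ℕ) : Set ℤ :=
  {t | |t| ≤ B ∧ ((∃ j, (f j).eval t = 0) ∨ ∃ S : Finset ℕ,
    ∑ p ∈ S, Real.log (p : ℝ) ≤ η * Real.log B ∧
      logRad S (∏ j, (f j).eval t) < θ * Real.log B)}

theorem Exc_finite {r : ℕ} (f : Fin r → ℤ[X]) (η θ : ℝ) (B : ℕ) : (Exc f η θ B).Finite :=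
  (Finset.Icc (-(B : ℤ)) B).finite_toSet.subset fun t ht => by
    rw [Finset.mem_coe, Finset.mem_Icc, ← abs_le]; exact ht.1

theorem final {r : ℕ} (k : Fin r → ℕ) (hk : ∀ j, 1 ≤ k j) (A : ℕ) (θ η : ℝ)
    (hθ : θ + η < ∑ j, ((min (k j) 2 : ℕ) : ℝ)) :
    ∃ c : ℝ, 0 < c ∧ ∃ C : ℝ, 0 < C ∧ ∀ B : ℕ, 1 ≤ B → ∀ f : Fin r → ℤ[X],
      (∀ j, (f j).natDegree = k j) → (∀ j i, |(f j).coeff i| ≤ (B : ℤ) ^ A) →
      Squarefree ((∏ j, f j).map (Int.castRingHom ℚ)) →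
      ((Exc f η θ B).ncard : ℝ) ≤ C * (B : ℝ) ^ (1 - c) := by
  classical
  obtain ⟨c, hc, C, hC, h⟩ := us_main k hk A θ η hθ
  refine ⟨c, hc, C + 3, by positivity, fun B hB f h1 h2 h3 => ?_⟩
  have hpos : 0 ≤ (B : ℝ) ^ (1 - c) := by positivity
  rcases Nat.lt_or_ge B 2 with hB2 | hB2
  · have hB1 : B = 1 := by omega
    subst hB1
    have h4 : (Exc f η θ 1).ncard ≤ (Finset.Icc (-(1 : ℤ)) 1).card := by
      rw [← Set.ncard_coe_finset]
      refine Set.ncard_le_ncard (fun t ht => ?_) (Finset.finite_toSet _)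
      rw [Finset.mem_coe, Finset.mem_Icc, ← abs_le]
      exact_mod_cast ht.1
    have h5 : (Finset.Icc (-(1 : ℤ)) 1).card = 3 := by decide
    rw [h5] at h4
    have h6 : ((Exc f η θ 1).ncard : ℝ) ≤ 3 := by exact_mod_cast h4
    rw [Nat.cast_one, Real.one_rpow]
    linarith
  · have h4 := h B hB2 f ⟨h1, h3, h2⟩ (Exc_finite f η θ B).toFinset (fun t ht => by
      rw [Set.Finite.mem_toFinset] at ht
      exact ht)
    rw [Set.ncard_eq_toFinset_card _ (Exc_finite f η θ B)]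
    refine h4.trans ?_
    nlinarith

/-- the polynomial `m ^ k f (X / m)` -/
noncomputable def scale (k : ℕ) (m : ℤ) (f : ℤ[X]) : ℤ[X] :=
  ∑ i ∈ Finset.range (k + 1), C (f.coeff i * m ^ (k - i)) * X ^ i

theorem scale_coeff (k : ℕ) (m : ℤ) (f : ℤ[X]) (i : ℕ) :
    (scale k m f).coeff i = if i ≤ k then f.coeff i * m ^ (k - i) else 0 := by
  unfold scale
  rw [finsetSum_coeff]
  simp only [coeff_C_mul, coeff_X_pow, mul_ite, mul_one, mul_zero]
  rw [Finset.sum_ite_eq]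
  by_cases h : i ≤ k
  · rw [if_pos (by rw [Finset.mem_range]; omega), if_pos h]
  · rw [if_neg (by rw [Finset.mem_range]; omega), if_neg h]

theorem scale_natDegree (k : ℕ) (m : ℤ) (f : ℤ[X]) (hf : f.natDegree = k) :
    (scale k m f).natDegree = k := by
  rcases eq_or_ne f 0 with h0 | h0
  · subst h0
    rw [← hf]
    simp [scale]
  · refine natDegree_eq_of_le_of_coeff_ne_zero ?_ ?_
    · rw [natDegree_le_iff_coeff_eq_zero]
      intro N hN
      rw [scale_coeff, if_neg (by omega)]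
    · rw [scale_coeff, if_pos le_rfl, Nat.sub_self, pow_zero, mul_one, ← hf]
      exact leadingCoeff_ne_zero.2 h0

theorem scale_eval (k : ℕ) (m t : ℤ) (f : ℤ[X]) :
    (scale k m f).eval t = ∑ i ∈ Finset.range (k + 1), f.coeff i * t ^ i * m ^ (k - i) := by
  unfold scale
  rw [eval_finsetSum]
  exact Finset.sum_congr rfl fun i _ => by simp; ring

theorem scale_map (k : ℕ) (m : ℤ) (hm : m ≠ 0) (f : ℤ[X]) (hf : f.natDegree = k) :
    (scale k m f).map (Int.castRingHom ℚ) = C ((m : ℚ) ^ k) *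
      (f.map (Int.castRingHom ℚ)).comp (C ((m : ℚ)⁻¹) * X) := by
  have hm' : (m : ℚ) ≠ 0 := by exact_mod_cast hm
  ext i
  rw [coeff_map, scale_coeff, coeff_C_mul, comp_C_mul_X_coeff, coeff_map]
  by_cases h : i ≤ k
  · rw [if_pos h]
    simp only [eq_intCast, Int.cast_mul, Int.cast_pow]
    have h1 : (m : ℚ) ^ k = (m : ℚ) ^ (k - i) * (m : ℚ) ^ i := by
      rw [← pow_add]; congr 1; omega
    rw [h1, inv_pow]
    field_simp
  · rw [if_neg h, coeff_eq_zero_of_natDegree_lt (by omega)]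
    simp

theorem squarefree_scale {r : ℕ} (k : Fin r → ℕ) (m : ℤ) (hm : m ≠ 0) (f : Fin r → ℤ[X])
    (hf : ∀ j, (f j).natDegree = k j)
    (hsq : Squarefree ((∏ j, f j).map (Int.castRingHom ℚ))) :
    Squarefree ((∏ j, scale (k j) m (f j)).map (Int.castRingHom ℚ)) := by
  have hm' : (m : ℚ) ≠ 0 := by exact_mod_cast hm
  have h1 : ((∏ j, scale (k j) m (f j)).map (Int.castRingHom ℚ)) =
      C (∏ j, (m : ℚ) ^ (k j)) *
        (((∏ j, f j).map (Int.castRingHom ℚ)).comp (C ((m : ℚ)⁻¹) * X)) := by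
    rw [Polynomial.map_prod, Polynomial.map_prod, Polynomial.prod_comp, map_prod,
      ← Finset.prod_mul_distrib]
    exact Finset.prod_congr rfl fun j _ => scale_map _ m hm _ (hf j)
  rw [h1]
  have hu : IsUnit (C (∏ j, (m : ℚ) ^ (k j)) : ℚ[X]) :=
    (isUnit_iff_ne_zero.2 (Finset.prod_ne_zero_iff.2 fun j _ => pow_ne_zero _ hm')).map C
  -- the substitution is an automorphism
  have h2 : Squarefree (((∏ j, f j).map (Int.castRingHom ℚ)).comp (C ((m : ℚ)⁻¹) * X)) := by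
    rw [← PerfectField.separable_iff_squarefree] at hsq ⊢
    rw [separable_def'] at hsq ⊢
    obtain ⟨a, b, hab⟩ := hsq
    have h3 := congrArg (fun p : ℚ[X] => p.comp (C ((m : ℚ)⁻¹) * X)) hab
    simp only [add_comp, mul_comp, one_comp] at h3
    refine ⟨a.comp (C ((m : ℚ)⁻¹) * X), C (m : ℚ) * b.comp (C ((m : ℚ)⁻¹) * X), ?_⟩
    have h4 : C (m : ℚ) * C ((m : ℚ)⁻¹) = 1 := by
      rw [← C_mul, mul_inv_cancel₀ hm', C_1]
    rw [derivative_comp]
    simp only [derivative_mul, derivative_C, zero_mul, derivative_X, mul_one, zero_add]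
    rw [← h3]
    linear_combination (b.comp (C ((m : ℚ)⁻¹) * X) *
      (derivative ((∏ j, f j).map (Int.castRingHom ℚ))).comp (C ((m : ℚ)⁻¹) * X)) * h4
  rw [squarefree_mul_iff]
  refine ⟨?_, hu.squarefree, h2⟩
  exact hu.isRelPrime_left

/-- the denominators -/
theorem final_den {r : ℕ} (k : Fin r → ℕ) (hk : ∀ j, 1 ≤ k j) (A : ℕ) (θ η : ℝ)
    (hθ : θ + η < ∑ j, ((min (k j) 2 : ℕ) : ℝ)) :
    ∃ c : ℝ, 0 < c ∧ ∃ C : ℝ, 0 < C ∧ ∀ B : ℕ, 1 ≤ B → ∀ f : Fin r → ℤ[X],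
      (∀ j, (f j).natDegree = k j) → (∀ j i, |(f j).coeff i| ≤ (B : ℤ) ^ A) →
      Squarefree ((∏ j, f j).map (Int.castRingHom ℚ)) → ∀ m : ℤ, m ≠ 0 → |m| ≤ (B : ℤ) ^ A →
      ((Exc (fun j => scale (k j) m (f j)) η θ B).ncard : ℝ) ≤ C * (B : ℝ) ^ (1 - c) := by
  obtain ⟨c, hc, C, hC, h⟩ := final k hk (A + A * ∑ j, k j) θ η hθ
  refine ⟨c, hc, C, hC, fun B hB f h1 h2 h3 m hm hmB => ?_⟩
  refine h B hB _ (fun j => scale_natDegree _ m _ (h1 j)) (fun j i => ?_)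
    (squarefree_scale k m hm f h1 h3)
  have hB1 : (1 : ℤ) ≤ B := by exact_mod_cast hB
  rw [scale_coeff]
  split_ifs with hi
  · rw [abs_mul, abs_pow, pow_add]
    refine mul_le_mul (h2 j i) ?_ (by positivity) (by positivity)
    calc |m| ^ (k j - i) ≤ ((B : ℤ) ^ A) ^ (k j - i) := pow_le_pow_left₀ (abs_nonneg m) hmB _
      _ = (B : ℤ) ^ (A * (k j - i)) := by rw [pow_mul]
      _ ≤ _ := by
          refine pow_le_pow_right₀ hB1 (Nat.mul_le_mul_left A ?_)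
          have := Finset.single_le_sum (f := k) (fun j _ => Nat.zero_le _) (Finset.mem_univ j)
          omega
  · rw [abs_zero]; positivity

end Run7.h742.UN
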