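import Mathlib
import Pool.Agent.N445.VW.Rad
import Pool.Agent.N445.VW.Pair
import Pool.Agent.Run7.h742.VI.Mul

/-!
# Sparse sets of arguments, uniformly in a class of polynomials (helper742)
-/

set_option autoImplicit false

namespace Run7.h742.UN

open Polynomial Pool.Agent.TH910.Voj Pool.Agent.H813R3.Voj Pool.Agent.N445.VW

/-- A property of integers `t`, `|t| ≤ B`, is sparse, uniformly in the objects of the class `Φ B`. -/
def US {α : Type*} (Φ : ℕ → α → Prop) (bad : ℕ → α → ℤ → Prop) : Prop :=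
  ∃ c : ℝ, 0 < c ∧ ∃ C : ℝ, 0 < C ∧ ∀ B : ℕ, 2 ≤ B → ∀ a : α, Φ B a → ∀ T : Finset ℤ,
    (∀ t ∈ T, |t| ≤ B ∧ bad B a t) → (T.card : ℝ) ≤ C * (B : ℝ) ^ (1 - c)

variable {α β : Type*} {Φ : ℕ → α → Prop} {Ψ : ℕ → β → Prop}

theorem US.mono {P Q : ℕ → α → ℤ → Prop} (h : US Φ Q)
    (hPQ : ∀ B a t, 2 ≤ B → Φ B a → |t| ≤ (B : ℤ) → P B a t → Q B a t) : US Φ P := by
  obtain ⟨c, hc, C, hC, h⟩ := h
  exact ⟨c, hc, C, hC, fun B hB a ha T hT => h B hB a ha T fun t ht =>
    ⟨(hT t ht).1, hPQ B a t hB ha (hT t ht).1 (hT t ht).2⟩⟩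

theorem US.comap {P : ℕ → β → ℤ → Prop} (h : US Ψ P) (φ : α → β)
    (hφ : ∀ B a, 2 ≤ B → Φ B a → Ψ B (φ a)) : US Φ (fun B a t => P B (φ a) t) := by
  obtain ⟨c, hc, C, hC, h⟩ := h
  exact ⟨c, hc, C, hC, fun B hB a ha T hT => h B hB (φ a) (hφ B a hB ha) T hT⟩

theorem US.or {P Q : ℕ → α → ℤ → Prop} (hP : US Φ P) (hQ : US Φ Q) :
    US Φ (fun B a t => P B a t ∨ Q B a t) := by
  classical
  obtain ⟨c, hc, C, hC, h⟩ := hP
  obtain ⟨c', hc', C', hC', h'⟩ := hQ
  refine ⟨min c c', lt_min hc hc', C + C', by positivity, fun B hB a ha T hT => ?_⟩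
  have hB1 : (1 : ℝ) ≤ B := by exact_mod_cast (by omega : 1 ≤ B)
  have h1 : (T.card : ℝ) ≤ ((T.filter fun t => P B a t).card : ℝ) +
      ((T.filter fun t => Q B a t).card : ℝ) := by
    have h2 : T ⊆ (T.filter fun t => P B a t) ∪ (T.filter fun t => Q B a t) := by
      intro t ht
      rw [Finset.mem_union, Finset.mem_filter, Finset.mem_filter]
      rcases (hT t ht).2 with h3 | h3
      · exact Or.inl ⟨ht, h3⟩
      · exact Or.inr ⟨ht, h3⟩
    exact_mod_cast (Finset.card_le_card h2).trans (Finset.card_union_le _ _)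
  refine h1.trans ?_
  rw [add_mul]
  refine add_le_add ((h B hB a ha _ fun t ht => ?_).trans ?_)
    ((h' B hB a ha _ fun t ht => ?_).trans ?_)
  · rw [Finset.mem_filter] at ht; exact ⟨(hT t ht.1).1, ht.2⟩
  · refine mul_le_mul_of_nonneg_left (Real.rpow_le_rpow_of_exponent_le hB1 ?_) hC.le
    linarith [min_le_left c c']
  · rw [Finset.mem_filter] at ht; exact ⟨(hT t ht.1).1, ht.2⟩
  · refine mul_le_mul_of_nonneg_left (Real.rpow_le_rpow_of_exponent_le hB1 ?_) hC'.le
    linarith [min_le_right c c']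

theorem US.false : US Φ (fun _ _ _ => False) := by
  refine ⟨1, one_pos, 1, one_pos, fun B hB a _ T hT => ?_⟩
  have : T = ∅ := by
    rw [Finset.eq_empty_iff_forall_notMem]
    exact fun t ht => (hT t ht).2
  rw [this, Finset.card_empty, Nat.cast_zero]
  positivity

theorem US.exists_fin {q : ℕ} {P : Fin q → ℕ → α → ℤ → Prop} (h : ∀ j, US Φ (P j)) :
    US Φ (fun B a t => ∃ j, P j B a t) := by
  classical
  have key : ∀ s : Finset (Fin q), US Φ (fun B a t => ∃ j ∈ s, P j B a t) := by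
    intro s
    induction s using Finset.induction_on with
    | empty => exact US.false.mono (by simp)
    | insert i s _ ih =>
      refine ((h i).or ih).mono ?_
      rintro B a t - - - ⟨j, hj, hjx⟩
      rcases Finset.mem_insert.mp hj with rfl | hj
      · exact Or.inl hjx
      · exact Or.inr ⟨j, hj, hjx⟩
  refine (key Finset.univ).mono ?_
  rintro B a t - - - ⟨j, hj⟩
  exact ⟨j, Finset.mem_univ j, hj⟩

theorem US.of_eventually {P Q : ℕ → α → ℤ → Prop} (h : US Φ Q) (B₀ : ℕ)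
    (hPQ : ∀ B a t, B₀ ≤ B → 2 ≤ B → Φ B a → |t| ≤ (B : ℤ) → P B a t → Q B a t) : US Φ P := by
  obtain ⟨c, hc, C, hC, h⟩ := h
  refine ⟨min c 1, lt_min hc one_pos, C + (2 * B₀ + 1), by positivity, fun B hB a ha T hT => ?_⟩
  have hB1 : (1 : ℝ) ≤ B := by exact_mod_cast (by omega : 1 ≤ B)
  have hc1 : 1 ≤ (B : ℝ) ^ (1 - min c 1) :=
    Real.one_le_rpow hB1 (by linarith [min_le_right c 1])
  by_cases hBB : B₀ ≤ B
  · refine (h B hB a ha T fun t ht => ⟨(hT t ht).1,
      hPQ B a t hBB hB ha (hT t ht).1 (hT t ht).2⟩).trans ?_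
    have h1 : (B : ℝ) ^ (1 - c) ≤ (B : ℝ) ^ (1 - min c 1) :=
      Real.rpow_le_rpow_of_exponent_le hB1 (by linarith [min_le_left c 1])
    have h2 : C * (B : ℝ) ^ (1 - c) ≤ C * (B : ℝ) ^ (1 - min c 1) :=
      mul_le_mul_of_nonneg_left h1 hC.le
    have h3 : (0 : ℝ) ≤ (2 * B₀ + 1) * (B : ℝ) ^ (1 - min c 1) := by positivity
    linarith
  · have h1 : T.card ≤ (Finset.Icc (-(B : ℤ)) B).card := Finset.card_le_card fun t ht => by
      rw [Finset.mem_Icc, ← abs_le]; exact (hT t ht).1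
    rw [Int.card_Icc] at h1
    have h2 : T.card ≤ 2 * B₀ + 1 := by omega
    have h3 : (T.card : ℝ) ≤ 2 * B₀ + 1 := by exact_mod_cast h2
    have h4 : (2 * B₀ + 1 : ℝ) ≤ (2 * B₀ + 1) * (B : ℝ) ^ (1 - min c 1) :=
      le_mul_of_one_le_right (by positivity) hc1
    have h5 : 0 ≤ C * (B : ℝ) ^ (1 - min c 1) := by positivity
    linarith

/-- The primitive separable polynomials of degree `k` with coefficients of absolute value at most
`B ^ A`. -/
structure Cl (k A B : ℕ) (f : ℤ[X]) : Prop where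
  deg : f.natDegree = k
  prim : f.IsPrimitive
  sep : (f.map (Int.castRingHom ℚ)).Separable
  ht : ∀ i, |f.coeff i| ≤ (B : ℤ) ^ A

theorem eval_le (k A B : ℕ) (hB : 2 ≤ B) (f : ℤ[X]) (hd : f.natDegree ≤ k)
    (hf : ∀ i, |f.coeff i| ≤ (B : ℤ) ^ A) (t : ℤ) (ht : |t| ≤ (B : ℤ)) :
    |f.eval t| ≤ (B : ℤ) ^ (A + 2 * k + 1) := by
  have hB0 : (0 : ℤ) ≤ B := Int.natCast_nonneg B
  have hB1 : (1 : ℤ) ≤ B := by exact_mod_cast (by omega : 1 ≤ B)
  rw [Polynomial.eval_eq_sum_range' (Nat.lt_succ_of_le hd)]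
  calc |∑ i ∈ Finset.range (k + 1), f.coeff i * t ^ i| ≤
        ∑ i ∈ Finset.range (k + 1), |f.coeff i * t ^ i| := Finset.abs_sum_le_sum_abs _ _
    _ ≤ ∑ _i ∈ Finset.range (k + 1), (B : ℤ) ^ (A + k) := by
        refine Finset.sum_le_sum fun i hi => ?_
        rw [abs_mul, abs_pow, pow_add]
        refine mul_le_mul (hf i) ?_ (by positivity) (by positivity)
        calc |t| ^ i ≤ (B : ℤ) ^ i := pow_le_pow_left₀ (abs_nonneg t) ht i
          _ ≤ (B : ℤ) ^ k := pow_le_pow_right₀ hB1 (by rw [Finset.mem_range] at hi; omega)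
    _ = (k + 1 : ℕ) * (B : ℤ) ^ (A + k) := by
        rw [Finset.sum_const, Finset.card_range, nsmul_eq_mul]
    _ ≤ (B : ℤ) ^ (k + 1) * (B : ℤ) ^ (A + k) := by
        refine mul_le_mul_of_nonneg_right ?_ (by positivity)
        have h1 : k + 1 ≤ B ^ (k + 1) :=
          Nat.lt_two_pow_self.le.trans (Nat.pow_le_pow_left hB (k + 1))
        exact_mod_cast h1
    _ = _ := by rw [← pow_add]; congr 1; omega

/-- `d` divides the Vandermonde determinant if it divides the values of a primitive polynomial -/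
theorem dvd_vandermonde' (f : ℤ[X]) (k : ℕ) (hf : f.natDegree ≤ k) (hp : f.IsPrimitive)
    (t : Fin (k + 1) → ℤ) (d : ℤ) (h : ∀ i, d ∣ f.eval (t i)) :
    d ∣ ∏ i, ∏ j ∈ Finset.Ioi i, (t j - t i) := by
  classical
  set V := Matrix.vandermonde t with hV
  have hdet : V.det = ∏ i, ∏ j ∈ Finset.Ioi i, (t j - t i) := Matrix.det_vandermonde t
  rw [← hdet]
  set c : Fin (k + 1) → ℤ := fun j => f.coeff j with hc
  have h1 : V.mulVec c = fun i => f.eval (t i) := by
    funext i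
    rw [Polynomial.eval_eq_sum_range' (Nat.lt_succ_of_le hf), Matrix.mulVec, dotProduct,
      Finset.sum_range]
    exact Finset.sum_congr rfl fun j _ => by
      rw [hV, Matrix.vandermonde_apply, hc, mul_comm]
  have h2 : V.adjugate.mulVec (V.mulVec c) = fun j => V.det * c j := by
    rw [Matrix.mulVec_mulVec, Matrix.adjugate_mul]
    funext j
    rw [Matrix.smul_mulVec, Matrix.one_mulVec]
    rfl
  have h3 : ∀ j, d ∣ V.det * c j := by
    intro j
    have h4 := congrFun h2 j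
    rw [← h4, h1, Matrix.mulVec, dotProduct]
    exact Finset.dvd_sum fun i _ => (h i).mul_left _
  have h4 : C d ∣ C V.det * f := by
    rw [Polynomial.C_dvd_iff_dvd_coeff]
    intro i
    rw [Polynomial.coeff_C_mul]
    by_cases hi : i < k + 1
    · exact h3 ⟨i, hi⟩
    · rw [Polynomial.coeff_eq_zero_of_natDegree_lt (by omega), mul_zero]
      exact dvd_zero _
  rw [← Polynomial.dvd_content_iff_C_dvd, Polynomial.content_C_mul, hp.content_eq_one, mul_one]
    at h4
  exact h4.trans (normalize_associated V.det).dvd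

theorem card_le_of_small_diam' (f : ℤ[X]) (k : ℕ) (hf : f.natDegree ≤ k) (hp : f.IsPrimitive)
    (d : ℕ) (ℓ : ℕ) (hℓ : 1 ≤ ℓ) (hlt : ℓ ^ ((k + 1) * (k + 1)) < d)
    (W : Finset ℤ) (hW : ∀ t ∈ W, (d : ℤ) ∣ f.eval t) (hdiam : ∀ s ∈ W, ∀ t ∈ W,
      (s - t).natAbs ≤ ℓ) : W.card ≤ k := by
  by_contra hcon
  have h1 : k + 1 ≤ W.card := by omega
  obtain ⟨W', hW'W, hW'⟩ := Finset.exists_subset_card_eq h1
  set t : Fin (k + 1) → ℤ := fun i => W'.orderEmbOfFin hW' i with ht
  have htW : ∀ i, t i ∈ W := fun i => hW'W (Finset.orderEmbOfFin_mem W' hW' i)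
  have hdvd := dvd_vandermonde' f k hf hp t d fun i => hW _ (htW i)
  have hne : ∏ i, ∏ j ∈ Finset.Ioi i, (t j - t i) ≠ 0 := by
    refine Finset.prod_ne_zero_iff.mpr fun i _ => Finset.prod_ne_zero_iff.mpr fun j hj => ?_
    rw [Finset.mem_Ioi] at hj
    have : t i < t j := (W'.orderEmbOfFin hW').strictMono hj
    omega
  have h2 : d ≤ (∏ i, ∏ j ∈ Finset.Ioi i, (t j - t i)).natAbs :=
    Nat.le_of_dvd (Int.natAbs_pos.mpr hne) (Int.natCast_dvd.mp hdvd)
  have h3 : (∏ i, ∏ j ∈ Finset.Ioi i, (t j - t i)).natAbs ≤ ℓ ^ ((k + 1) * (k + 1)) := by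
    have h4 : (∏ i, ∏ j ∈ Finset.Ioi i, (t j - t i)).natAbs =
        ∏ i, ∏ j ∈ Finset.Ioi i, (t j - t i).natAbs := by
      have h5 := map_prod Int.natAbsHom (fun i => ∏ j ∈ Finset.Ioi i, (t j - t i)) Finset.univ
      refine h5.trans (Finset.prod_congr rfl fun i _ => ?_)
      exact map_prod Int.natAbsHom (fun j => (t j - t i)) (Finset.Ioi i)
    rw [h4]
    calc ∏ i, ∏ j ∈ Finset.Ioi i, (t j - t i).natAbs ≤ ∏ i : Fin (k + 1), ℓ ^ (k + 1) := by
          refine Finset.prod_le_prod' fun i _ => ?_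
          calc ∏ j ∈ Finset.Ioi i, (t j - t i).natAbs ≤ ∏ j ∈ Finset.Ioi i, ℓ :=
                Finset.prod_le_prod' fun j _ => hdiam _ (htW j) _ (htW i)
            _ = ℓ ^ (Finset.Ioi i).card := by rw [Finset.prod_const]
            _ ≤ ℓ ^ (k + 1) := by
                refine Nat.pow_le_pow_right hℓ ?_
                have := Finset.card_le_univ (Finset.Ioi i)
                rwa [Fintype.card_fin] at this
      _ = _ := by rw [Finset.prod_const, Finset.card_univ, Fintype.card_fin, ← pow_mul]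
  omega

theorem card_roots_mod_le' (f : ℤ[X]) (k : ℕ) (hf : f.natDegree ≤ k) (hp : f.IsPrimitive)
    (d : ℕ) (ℓ : ℕ) (hℓ : 1 ≤ ℓ) (hlt : ℓ ^ ((k + 1) * (k + 1)) < d)
    (B : ℕ) : ((Finset.Icc (-(B : ℤ)) B).filter fun t => (d : ℤ) ∣ f.eval t).card ≤
      k * (2 * B / ℓ + 1) := by
  classical
  set W := (Finset.Icc (-(B : ℤ)) B).filter fun t => (d : ℤ) ∣ f.eval t with hW
  have hℓ0 : (0 : ℤ) < ℓ := by exact_mod_cast hℓ
  have h1 : ∀ t ∈ W, ((t + B) / ℓ) ∈ Finset.Icc (0 : ℤ) ((2 * B / ℓ : ℕ) : ℤ) := by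
    intro t ht
    rw [hW, Finset.mem_filter, Finset.mem_Icc] at ht
    rw [Finset.mem_Icc]
    refine ⟨Int.ediv_nonneg (by omega) hℓ0.le, ?_⟩
    push_cast
    exact Int.ediv_le_ediv hℓ0 (by omega)
  have h2 := Finset.card_le_mul_card_image_of_maps_to (s := W) (f := fun t : ℤ => (t + B) / ℓ) h1 k
    (by
      intro m _
      refine card_le_of_small_diam' f k hf hp d ℓ hℓ hlt _ ?_ ?_
      · intro t ht
        rw [Finset.mem_filter, hW, Finset.mem_filter] at ht
        exact ht.1.2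
      · intro s hs t ht
        rw [Finset.mem_filter] at hs ht
        have hs2 := Int.emod_add_mul_ediv (s + B) ℓ
        have ht2 := Int.emod_add_mul_ediv (t + B) ℓ
        have hs3 := Int.emod_nonneg (s + B) hℓ0.ne'
        have ht3 := Int.emod_nonneg (t + B) hℓ0.ne'
        have hs4 := Int.emod_lt_of_pos (s + B) hℓ0
        have ht4 := Int.emod_lt_of_pos (t + B) hℓ0
        have hs5 := hs.2
        have ht5 := ht.2
        rw [hs5] at hs2
        rw [ht5] at ht2
        omega)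
  refine h2.trans (le_of_eq ?_)
  rw [Int.card_Icc]
  congr 1

/-- a primitive polynomial is not zero modulo a prime -/
theorem prim_map_ne (f : ℤ[X]) (hp : f.IsPrimitive) (p : ℕ) (hpp : p.Prime) :
    f.map (Int.castRingHom (ZMod p)) ≠ 0 := by
  intro h
  have h1 : C (p : ℤ) ∣ f := by
    rw [Polynomial.C_dvd_iff_dvd_coeff]
    intro i
    have h2 := congrArg (fun g : (ZMod p)[X] => g.coeff i) h
    simp only [Polynomial.coeff_map, Polynomial.coeff_zero] at h2
    exact (ZMod.intCast_zmod_eq_zero_iff_dvd _ p).1 h2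
  have h2 := hp (p : ℤ) h1
  have h3 := (Nat.prime_iff_prime_int.1 hpp).not_unit
  exact h3 h2

theorem card_sq' (f : Polynomial ℤ) (hp : f.IsPrimitive) (m : ℕ) (hm : 1 ≤ m) (B : ℕ)
    (T : Finset ℤ)
    (hT : ∀ t ∈ T, |t| ≤ B ∧ (m : ℤ) ^ 2 ∣ f.eval t ∧
      ∀ p : ℕ, p.Prime → p ∣ m → ¬ (p : ℤ) ∣ (Polynomial.derivative f).eval t) :
    T.card ≤ f.natDegree ^ m.primeFactors.card * (2 * B / m ^ 2 + 1) := by
  classical
  set S : Finset ({p // p ∈ m.primeFactors} → ℤ) := Fintype.piFinset fun p => rts f p with hS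
  have hScard : S.card ≤ f.natDegree ^ m.primeFactors.card := by
    rw [hS, Fintype.card_piFinset]
    calc ∏ p : {p // p ∈ m.primeFactors}, (rts f p).card ≤
          ∏ _p : {p // p ∈ m.primeFactors}, f.natDegree := by
          refine Finset.prod_le_prod' fun p _ => ?_
          have hq := p.2
          rw [Nat.mem_primeFactors] at hq
          exact card_rts' f p hq.1 (prim_map_ne f hp p hq.1)
      _ = _ := by
          rw [Finset.prod_const, Finset.card_univ, Fintype.card_coe]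
  have h1 := Finset.card_le_mul_card_image_of_maps_to (s := T) (t := S)
    (f := fun (t : ℤ) (p : {p // p ∈ m.primeFactors}) => t % ((p : ℕ) : ℤ)) (by
      intro t ht
      rw [hS, Fintype.mem_piFinset]
      intro p
      have hp := p.2
      rw [Nat.mem_primeFactors] at hp
      have hp0 : (0 : ℤ) < (p : ℕ) := by exact_mod_cast hp.1.pos
      unfold rts
      rw [Finset.mem_filter, Finset.mem_Ico]
      refine ⟨⟨Int.emod_nonneg _ hp0.ne', Int.emod_lt_of_pos _ hp0⟩, ?_⟩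
      have h2 : ((p : ℕ) : ℤ) ∣ f.eval t := by
        have h3 : ((p : ℕ) : ℤ) ∣ (m : ℤ) := by exact_mod_cast hp.2.1
        exact (h3.trans (dvd_pow_self _ two_ne_zero)).trans (hT t ht).2.1
      have h4 : ((p : ℕ) : ℤ) ∣ f.eval (t % ((p : ℕ) : ℤ)) - f.eval t :=
        ((Int.mod_modEq t ((p : ℕ) : ℤ)).symm.dvd).trans (Polynomial.sub_dvd_eval_sub _ _ _)
      have := dvd_add h4 h2
      simpa using this) (2 * B / m ^ 2 + 1) (by
      intro s _
      refine card_interval B (m ^ 2) (Nat.pos_of_ne_zero (pow_ne_zero _ (by omega))) _ ?_ ?_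
      · intro t ht
        rw [Finset.mem_filter] at ht
        exact (hT t ht.1).1
      · intro t ht t' ht'
        rw [Finset.mem_filter] at ht ht'
        push_cast
        refine lift_congr f _ t t' (hT t ht.1).2.1 (hT t' ht'.1).2.1 ?_
        intro p hp hpd
        have hpm : p ∣ m := by
          have h3 : p ∣ m ^ 2 := by exact_mod_cast hpd
          exact hp.dvd_of_dvd_pow h3
        refine ⟨?_, (hT t ht.1).2.2 p hp hpm⟩
        have hmem : p ∈ m.primeFactors := Nat.mem_primeFactors.2 ⟨hp, hpm, by omega⟩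
        have h4 := congrFun (ht.2.trans ht'.2.symm) ⟨p, hmem⟩
        simp only at h4
        exact Int.ModEq.dvd h4)
  refine h1.trans ?_
  rw [mul_comm]
  exact Nat.mul_le_mul_right _ hScard

/-- The roots modulo a squarefree number are in few classes. -/
theorem card_classes' (f : Polynomial ℤ) (hp : f.IsPrimitive) (s : ℕ) (hs : Squarefree s)
    (T : Finset ℤ)
    (hT : ∀ t ∈ T, (s : ℤ) ∣ f.eval t ∧
      ∀ p : ℕ, p.Prime → p ∣ s → ¬ (p : ℤ) ∣ (Polynomial.derivative f).eval t) (M : ℝ)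
    (hM : ∀ T' ⊆ T, (∀ t ∈ T', ∀ t' ∈ T', (s : ℤ) ∣ t' - t) → (T'.card : ℝ) ≤ M) :
    (T.card : ℝ) ≤ (f.natDegree : ℝ) ^ s.primeFactors.card * M := by
  classical
  have hs0 : s ≠ 0 := hs.ne_zero
  have hM0 : 0 ≤ M := by
    have := hM ∅ (Finset.empty_subset _) (by simp)
    simpa using this
  set S : Finset ({p // p ∈ s.primeFactors} → ℤ) := Fintype.piFinset fun p => rts f p with hS
  have hScard : S.card ≤ f.natDegree ^ s.primeFactors.card := by
    rw [hS, Fintype.card_piFinset]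
    calc ∏ p : {p // p ∈ s.primeFactors}, (rts f p).card ≤
          ∏ _p : {p // p ∈ s.primeFactors}, f.natDegree := by
          refine Finset.prod_le_prod' fun p _ => ?_
          have hq := p.2
          rw [Nat.mem_primeFactors] at hq
          exact card_rts' f p hq.1 (prim_map_ne f hp p hq.1)
      _ = _ := by
          rw [Finset.prod_const, Finset.card_univ, Fintype.card_coe]
  set φ : ℤ → ({p // p ∈ s.primeFactors} → ℤ) := fun t p => t % ((p : ℕ) : ℤ) with hφ
  have hmaps : ∀ t ∈ T, φ t ∈ S := by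
    intro t ht
    rw [hS, Fintype.mem_piFinset]
    intro p
    have hp := p.2
    rw [Nat.mem_primeFactors] at hp
    have hp0 : (0 : ℤ) < (p : ℕ) := by exact_mod_cast hp.1.pos
    unfold rts
    rw [Finset.mem_filter, Finset.mem_Ico]
    refine ⟨⟨Int.emod_nonneg _ hp0.ne', Int.emod_lt_of_pos _ hp0⟩, ?_⟩
    have h2 : ((p : ℕ) : ℤ) ∣ f.eval t := by
      have h3 : ((p : ℕ) : ℤ) ∣ (s : ℤ) := by exact_mod_cast hp.2.1
      exact h3.trans (hT t ht).1
    have h4 : ((p : ℕ) : ℤ) ∣ f.eval (t % ((p : ℕ) : ℤ)) - f.eval t :=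
      ((Int.mod_modEq t ((p : ℕ) : ℤ)).symm.dvd).trans (Polynomial.sub_dvd_eval_sub _ _ _)
    have := dvd_add h4 h2
    simpa using this
  have h1 : (T.card : ℝ) = ∑ y ∈ S, ((T.filter fun t => φ t = y).card : ℝ) := by
    exact_mod_cast Finset.card_eq_sum_card_fiberwise hmaps
  rw [h1]
  refine (Finset.sum_le_sum fun y _ => hM _ (Finset.filter_subset _ _) ?_).trans ?_
  · intro t ht t' ht'
    rw [Finset.mem_filter] at ht ht'
    refine lift_congr f _ t t' (hT t ht.1).1 (hT t' ht'.1).1 ?_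
    intro p hp hpd
    have hps : p ∣ s := by exact_mod_cast hpd
    refine ⟨?_, (hT t ht.1).2 p hp hps⟩
    have hmem : p ∈ s.primeFactors := Nat.mem_primeFactors.2 ⟨hp, hps, hs0⟩
    have h4 := congrFun (ht.2.trans ht'.2.symm) ⟨p, hmem⟩
    simp only [hφ] at h4
    exact Int.ModEq.dvd h4
  · rw [Finset.sum_const, nsmul_eq_mul]
    refine mul_le_mul_of_nonneg_right ?_ hM0
    exact_mod_cast hScard

end Run7.h742.UN
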