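import Pool.Agent.Run7.h742.UN.Rad
import Pool.Agent.TH910.Voj.Trunc

/-!
# The radical of the values of a product of polynomials, uniformly in the polynomials (helper742)
-/

set_option autoImplicit false

namespace Run7.h742.UN

open Polynomial Pool.Agent.TH910.Voj Pool.Agent.H813R3.Voj Pool.Agent.N445.VW

theorem rd_le_rd_mul (t a b : ℕ) (ha : a ≠ 0) (hb : b ≠ 0)
    (h : ∀ p : ℕ, p.Prime → p ∣ t → p ∣ a ∨ p ∣ b) : rd t ≤ rd a * rd b := by
  classical
  have hsub : t.primeFactors ⊆ a.primeFactors ∪ b.primeFactors := by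
    intro p hp
    rw [Nat.mem_primeFactors] at hp
    rw [Finset.mem_union, Nat.mem_primeFactors, Nat.mem_primeFactors]
    rcases h p hp.1 hp.2.1 with h1 | h1
    · exact Or.inl ⟨hp.1, h1, ha⟩
    · exact Or.inr ⟨hp.1, h1, hb⟩
  have h1 : rd t ≤ ∏ p ∈ a.primeFactors ∪ b.primeFactors, p := by
    unfold rd
    refine Finset.prod_le_prod_of_subset_of_one_le' hsub ?_
    intro p hp _
    rw [Finset.mem_union] at hp
    rcases hp with hp | hp
    · exact (Nat.prime_of_mem_primeFactors hp).one_le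
    · exact (Nat.prime_of_mem_primeFactors hp).one_le
  have h2 := Finset.prod_union_inter (s₁ := a.primeFactors) (s₂ := b.primeFactors)
    (f := fun p : ℕ => p)
  have h3 : 1 ≤ ∏ p ∈ a.primeFactors ∩ b.primeFactors, p :=
    Finset.prod_pos fun p hp =>
      (Nat.prime_of_mem_primeFactors (Finset.mem_inter.1 hp).1).pos
  calc rd t ≤ ∏ p ∈ a.primeFactors ∪ b.primeFactors, p := h1
    _ ≤ (∏ p ∈ a.primeFactors ∪ b.primeFactors, p) * ∏ p ∈ a.primeFactors ∩ b.primeFactors, p :=
        Nat.le_mul_of_pos_right _ h3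
    _ = rd a * rd b := h2

theorem rd_gcd_prod {ι : Type*} (s : Finset ι) (a : ℤ) (ha : a ≠ 0) (b : ι → ℤ) :
    rd (Int.gcd a (∏ i ∈ s, b i)) ≤ ∏ i ∈ s, rd (Int.gcd a (b i)) := by
  classical
  induction s using Finset.induction_on with
  | empty => simp [rd]
  | insert i s hi ih =>
    rw [Finset.prod_insert hi, Finset.prod_insert hi]
    refine (rd_le_rd_mul _ (Int.gcd a (b i)) (Int.gcd a (∏ i ∈ s, b i)) ?_ ?_ ?_).trans
      (Nat.mul_le_mul_left _ ih)
    · exact fun h => ha (Int.gcd_eq_zero_iff.1 h).1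
    · exact fun h => ha (Int.gcd_eq_zero_iff.1 h).1
    · intro p hp hpd
      have h1 : p ∣ a.natAbs := hpd.trans (Nat.gcd_dvd_left _ _)
      have h2 : p ∣ (b i * ∏ i ∈ s, b i).natAbs := hpd.trans (Nat.gcd_dvd_right _ _)
      rw [Int.natAbs_mul] at h2
      rcases (hp.dvd_mul).1 h2 with h3 | h3
      · exact Or.inl (Nat.dvd_gcd h1 h3)
      · exact Or.inr (Nat.dvd_gcd h1 h3)

/-- The tuples of polynomials of degrees `k j` with coefficients of absolute value at most `B ^ A`
whose product is squarefree over `ℚ`. -/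
structure ClM {r : ℕ} (k : Fin r → ℕ) (A B : ℕ) (f : Fin r → ℤ[X]) : Prop where
  deg : ∀ j, (f j).natDegree = k j
  sq : Squarefree ((∏ j, f j).map (Int.castRingHom ℚ))
  ht : ∀ j i, |(f j).coeff i| ≤ (B : ℤ) ^ A

theorem primPart_ht {A B : ℕ} (f : ℤ[X]) (hf : f ≠ 0) (h : ∀ i, |f.coeff i| ≤ (B : ℤ) ^ A) :
    ∀ i, |f.primPart.coeff i| ≤ (B : ℤ) ^ A := by
  intro i
  refine le_trans ?_ (h i)
  have h1 : f.coeff i = f.content * f.primPart.coeff i := by
    conv_lhs => rw [f.eq_C_content_mul_primPart]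
    rw [coeff_C_mul]
  rw [h1, abs_mul]
  refine le_mul_of_one_le_left (abs_nonneg _) ?_
  exact Int.one_le_abs (mt content_eq_zero_iff.1 hf)

theorem ClM.data {r : ℕ} {k : Fin r → ℕ} {A B : ℕ} {f : Fin r → ℤ[X]} (h : ClM k A B f) :
    (∀ j, f j ≠ 0) ∧ (∀ j, Cl (k j) A B (f j).primPart) ∧
      ∀ i j, i ≠ j → Cl2 (k j) (k i) A B ((f j).primPart, (f i).primPart) := by
  classical
  have hsep : ((∏ j, f j).map (Int.castRingHom ℚ)).Separable :=
    PerfectField.separable_iff_squarefree.2 h.sq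
  rw [Polynomial.map_prod] at hsep
  have hne : ∀ j, f j ≠ 0 := by
    intro j h0
    have h1 := hsep.ne_zero
    exact Finset.prod_ne_zero_iff.1 h1 j (Finset.mem_univ j) (by rw [h0, Polynomial.map_zero])
  have hdvd : ∀ j, (f j).primPart.map (Int.castRingHom ℚ) ∣ (f j).map (Int.castRingHom ℚ) :=
    fun j => Polynomial.map_dvd _ ⟨C (f j).content, by
      rw [mul_comm]; exact (f j).eq_C_content_mul_primPart⟩
  refine ⟨hne, fun j => ⟨?_, isPrimitive_primPart _, ?_, primPart_ht _ (hne j) (h.ht j)⟩,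
    fun i j hij => ⟨?_, isPrimitive_primPart _, primPart_ht _ (hne j) (h.ht j), ?_,
      primPart_ht _ (hne i) (h.ht i), ?_⟩⟩
  · rw [natDegree_primPart, h.deg]
  · exact (hsep.of_dvd (Finset.dvd_prod_of_mem _ (Finset.mem_univ j))).of_dvd (hdvd j)
  · rw [natDegree_primPart, h.deg]
  · rw [natDegree_primPart, h.deg]
  · have h1 : (f j).map (Int.castRingHom ℚ) * (f i).map (Int.castRingHom ℚ) ∣
        ∏ j, (f j).map (Int.castRingHom ℚ) := by
      rw [← Finset.mul_prod_erase Finset.univ _ (Finset.mem_univ j)]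
      exact mul_dvd_mul_left _ (Finset.dvd_prod_of_mem _
        (Finset.mem_erase.2 ⟨hij, Finset.mem_univ i⟩))
    exact (((hsep.of_dvd h1).isCoprime).of_isCoprime_of_dvd_left (hdvd j)).of_isCoprime_of_dvd_right
      (hdvd i)

theorem logRad_mono (S : Finset ℕ) {a b : ℤ} (hab : a ∣ b) (hb : b ≠ 0) :
    logRad S a ≤ logRad S b := by
  unfold logRad
  refine Finset.sum_le_sum_of_subset_of_nonneg ?_ fun p _ _ => Real.log_natCast_nonneg _
  refine Finset.sdiff_subset_sdiff (Nat.primeFactors_mono ?_ ?_) le_rfl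
  · exact Int.natAbs_dvd_natAbs.2 hab
  · exact Int.natAbs_ne_zero.2 hb

/-- **The truncated counting function of the integers, uniformly in the divisor and in the set of
primes.** -/
theorem us_main {r : ℕ} (k : Fin r → ℕ) (hk : ∀ j, 1 ≤ k j) (A : ℕ) (θ η : ℝ)
    (hθ : θ + η < ∑ j, ((min (k j) 2 : ℕ) : ℝ)) :
    US (ClM k A) (fun B f t => (∃ j, (f j).eval t = 0) ∨ ∃ S : Finset ℕ,
      ∑ p ∈ S, Real.log (p : ℝ) ≤ η * Real.log B ∧
      logRad S (∏ j, (f j).eval t) < θ * Real.log B) := by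
  classical
  set m : Fin r → ℕ := fun j => min (k j) 2 with hm
  set Δ : ℝ := (∑ j, (m j : ℝ)) - (θ + η) with hΔ
  have hΔ0 : 0 < Δ := by rw [hΔ]; linarith
  set ρ : ℝ := Δ / (4 * (r + 1) * (r + 1)) with hρ
  have hρ0 : 0 < ρ := by positivity
  have hrr : (r : ℝ) * (ρ + r * ρ) < Δ := by
    rw [hρ]
    have hq : (0 : ℝ) ≤ r := Nat.cast_nonneg r
    have h1 : (r : ℝ) * (Δ / (4 * (r + 1) * (r + 1)) + r * (Δ / (4 * (r + 1) * (r + 1)))) =
        Δ * (r / (4 * (r + 1))) := by
      field_simp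
      ring
    rw [h1]
    have h2 : (r : ℝ) / (4 * (r + 1)) < 1 := by
      rw [div_lt_one (by positivity)]
      linarith
    nlinarith
  have hz : ∀ j, US (ClM k A) (fun B f t => (f j).primPart.eval t = 0 ∨
      ((f j).primPart.eval t ≠ 0 ∧
        (rd ((f j).primPart.eval t).natAbs : ℝ) ≤ (B : ℝ) ^ ((m j : ℝ) - ρ))) := by
    intro j
    refine US.or ?_ ?_
    · refine ⟨1, one_pos, k j + 1, by positivity, fun B hB f hf T hT => ?_⟩
      obtain ⟨h1, h2, -⟩ := hf.data
      have h3 : T.card ≤ (f j).primPart.roots.toFinset.card := by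
        refine Finset.card_le_card fun t ht => ?_
        rw [Multiset.mem_toFinset, mem_roots (h2 j).prim.ne_zero]
        exact (hT t ht).2
      have h4 : T.card ≤ k j := h3.trans ((Multiset.toFinset_card_le _).trans
        ((card_roots' _).trans (h2 j).deg.le))
      have h5 : (T.card : ℝ) ≤ k j := by exact_mod_cast h4
      rw [sub_self, Real.rpow_zero, mul_one]
      linarith
    · exact (us_rad (k j) A (hk j) (m j) ρ hρ0 (by exact_mod_cast min_le_left (k j) 2)
        (by exact_mod_cast min_le_right (k j) 2)).comap (fun f : Fin r → ℤ[X] => (f j).primPart)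
          fun B f _ hf => (hf.data).2.1 j
  have hg : ∀ j i, US (ClM k A) (fun B f t => i ≠ j ∧ ((f j).primPart.eval t ≠ 0 ∧
      (B : ℝ) ^ ρ < rd (Int.gcd ((f j).primPart.eval t) ((f i).primPart.eval t)))) := by
    intro j i
    by_cases hij : i = j
    · exact US.false.mono fun B f t _ _ _ h => h.1 hij
    · exact ((us_gcd (k j) (k i) A hρ0).comap
        (fun f : Fin r → ℤ[X] => ((f j).primPart, (f i).primPart))
          fun B f _ hf => (hf.data).2.2 i j hij).mono fun B f t _ _ _ h => h.2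
  refine ((US.exists_fin hz).or (US.exists_fin fun j => US.exists_fin fun i => hg j i)).mono ?_
  rintro B f t hB hf ht hbad
  by_contra hcon
  rw [not_or] at hcon
  obtain ⟨hc1, hc2⟩ := hcon
  push Not at hc1 hc2
  have hB1 : (1 : ℝ) ≤ B := by exact_mod_cast (by omega : 1 ≤ B)
  have hBpos : (0 : ℝ) < B := by linarith
  have hB2 : (2 : ℝ) ≤ B := by exact_mod_cast hB
  have hlogB : 0 < Real.log B := Real.log_pos (by linarith)
  have ha : ∀ j, (f j).primPart.eval t ≠ 0 := fun j => (hc1 j).1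
  have hfa : ∀ j, (f j).eval t = (f j).content * (f j).primPart.eval t := by
    intro j
    conv_lhs => rw [(f j).eq_C_content_mul_primPart]
    rw [eval_mul, eval_C]
  have hdata := hf.data
  have hfne : ∀ j, (f j).eval t ≠ 0 := fun j => by
    rw [hfa]
    exact mul_ne_zero (mt content_eq_zero_iff.1 (hdata.1 j)) (ha j)
  obtain ⟨S, hS, hlt⟩ : ∃ S : Finset ℕ, ∑ p ∈ S, Real.log (p : ℝ) ≤ η * Real.log B ∧
      logRad S (∏ j, (f j).eval t) < θ * Real.log B := by
    rcases hbad with ⟨j, hj⟩ | h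
    · exact absurd hj (hfne j)
    · exact h
  have hlt2 : logRad S (∏ j, (f j).primPart.eval t) < θ * Real.log B := by
    refine lt_of_le_of_lt (logRad_mono S ?_ ?_) hlt
    · exact Finset.prod_dvd_prod_of_dvd _ _ fun j _ => by rw [hfa j]; exact Dvd.intro_left _ rfl
    · exact Finset.prod_ne_zero_iff.2 fun j _ => hfne j
  set b : Fin r → ℤ := fun j => ∏ i ∈ Finset.univ.erase j, (f i).primPart.eval t with hb
  have hab : ∀ i j, i ≠ j → (f i).primPart.eval t ∣ b j := by
    intro i j hij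
    exact Finset.dvd_prod_of_mem (fun i => (f i).primPart.eval t)
      (Finset.mem_erase.mpr ⟨hij, Finset.mem_univ i⟩)
  have h1 := logRad_prod_ge S (fun j => (f j).primPart.eval t) ha b hab
  have hj : ∀ j, ((m j : ℝ) - (ρ + r * ρ)) * Real.log B ≤
      Real.log (rd ((f j).primPart.eval t).natAbs) -
        Real.log (rd (Int.gcd ((f j).primPart.eval t) (b j))) := by
    intro j
    have h3 := (hc1 j).2 (ha j)
    have e1 : ((m j : ℝ) - ρ) * Real.log B ≤ Real.log (rd ((f j).primPart.eval t).natAbs) := by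
      rw [← Real.log_rpow hBpos]
      exact Real.log_le_log (by positivity) h3.le
    have e2 : Real.log (rd (Int.gcd ((f j).primPart.eval t) (b j))) ≤ (r * ρ) * Real.log B := by
      rw [← Real.log_rpow hBpos]
      refine Real.log_le_log (by exact_mod_cast rd_pos _) ?_
      have e3 : (rd (Int.gcd ((f j).primPart.eval t) (b j)) : ℝ) ≤
          ∏ i ∈ Finset.univ.erase j,
            (rd (Int.gcd ((f j).primPart.eval t) ((f i).primPart.eval t)) : ℝ) := by
        exact_mod_cast rd_gcd_prod (Finset.univ.erase j) _ (ha j) _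
      refine e3.trans ?_
      calc ∏ i ∈ Finset.univ.erase j,
            (rd (Int.gcd ((f j).primPart.eval t) ((f i).primPart.eval t)) : ℝ) ≤
            ∏ _i ∈ Finset.univ.erase j, (B : ℝ) ^ ρ := by
            refine Finset.prod_le_prod (fun i _ => Nat.cast_nonneg _) fun i hi => ?_
            exact hc2 j i (Finset.ne_of_mem_erase hi) (ha j)
        _ = ((B : ℝ) ^ ρ) ^ (Finset.univ.erase j : Finset (Fin r)).card := by
            rw [Finset.prod_const]
        _ ≤ ((B : ℝ) ^ ρ) ^ r := by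
            refine pow_le_pow_right₀ (Real.one_le_rpow hB1 hρ0.le) ?_
            have := Finset.card_le_univ (Finset.univ.erase j : Finset (Fin r))
            rwa [Fintype.card_fin] at this
        _ = (B : ℝ) ^ (r * ρ) := by
            rw [← Real.rpow_natCast, ← Real.rpow_mul hBpos.le, mul_comm]
    linarith
  have h2 := Finset.sum_le_sum fun j (_ : j ∈ Finset.univ) => hj j
  rw [← Finset.sum_mul, Finset.sum_sub_distrib, Finset.sum_const, Finset.card_univ,
    Fintype.card_fin, nsmul_eq_mul] at h2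
  have h11 : (∑ j, (m j : ℝ)) = θ + η + Δ := by rw [hΔ]; ring
  rw [h11] at h2
  nlinarith

end Run7.h742.UN
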