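import Pool.Agent.Run7.h742.UN.Sp

/-!
# Values which are moderate multiples of powers, uniformly in the polynomial (helper742)
-/

set_option autoImplicit false

namespace Run7.h742.UN

open Polynomial Pool.Agent.TH910.Voj Pool.Agent.H813R3.Voj Pool.Agent.N445.VW

/-- **Multiples of powers.** -/
theorem us_mul (k A : ℕ) (hk1 : 1 ≤ k) (e : ℕ) (he : 2 ≤ e) {δ : ℝ} (hδ : 0 < δ) (hδ1 : δ ≤ 1) :
    US (Cl k A) (fun B f t => f.eval t ≠ 0 ∧ ∃ (s : ℕ) (σ w : ℤ), Squarefree s ∧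
      (s : ℝ) ≤ (B : ℝ) ^ (1 - δ) ∧ (σ.natAbs : ℝ) ≤ (B : ℝ) ^ (δ / 16) ∧
      f.eval t = σ * s * w ^ e ∧ ∀ p : ℕ, p.Prime → p ∣ s →
        ¬ (p : ℤ) ∣ (derivative f).eval t) := by
  classical
  obtain ⟨A', hA'⟩ := exists_bezout k k (A + k)
  set A₁ : ℕ := (A + 2 * k + 1) + (1 + (e + A')) with hA₁
  obtain ⟨C1, hC1, hbp⟩ := VI.bp_class e he k hk1 A₁ δ hδ
  have hk0 : (0 : ℝ) < k := by exact_mod_cast hk1
  set ε : ℝ := δ / 16 with hε
  have hε0 : 0 < ε := by positivity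
  obtain ⟨Cd, hCd0, hCd⟩ := Pool.Agent.H510R2.divisor_bound (ε / k) (by positivity)
  refine ⟨ε, hε0, 3 * (Cd ^ k * (C1 * (1 + 1 / ε))), by positivity, ?_⟩
  intro B hB2 f hf T hT
  have hB1 : (1 : ℝ) ≤ B := by exact_mod_cast (by omega : 1 ≤ B)
  have hBpos : (0 : ℝ) < B := by linarith
  have hq := cl2_deriv k A B hB2 f hf
  obtain ⟨N₀, hN0, hNle, U, V, hUV⟩ := hA' B hB2 f (derivative f) hq.deg hq.deg2 hq.ht hq.ht2 hq.cop
  have hle2 : ∀ m : ℕ, m ≤ B ^ m := fun m =>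
    Nat.lt_two_pow_self.le.trans (Nat.pow_le_pow_left hB2 m)
  set S1 := ⌊(B : ℝ) ^ ε⌋₊ with hS1
  have hS1B : (S1 : ℝ) ≤ (B : ℝ) ^ ε := Nat.floor_le (by positivity)
  set S2 := ⌊(B : ℝ) ^ (1 - δ)⌋₊ with hS2
  have hS2B : (S2 : ℝ) ≤ (B : ℝ) ^ (1 - δ) := Nat.floor_le (by positivity)
  have hpow1 : ∀ t : ℝ, t ≤ 1 → (B : ℝ) ^ t ≤ B := fun t ht => by
    calc (B : ℝ) ^ t ≤ (B : ℝ) ^ (1 : ℝ) := Real.rpow_le_rpow_of_exponent_le hB1 ht
      _ = B := Real.rpow_one _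
  have hS1B' : S1 ≤ B := by
    have h1 : (S1 : ℝ) ≤ B := hS1B.trans (hpow1 _ (by rw [hε]; linarith))
    exact_mod_cast h1
  have hS2B' : (S2 : ℝ) ≤ B := hS2B.trans (hpow1 _ (by linarith))
  set Ts : ℤ → ℕ → Finset ℤ := fun σ s => T.filter fun t => f.eval t ≠ 0 ∧
      Squarefree s ∧ (∃ w : ℤ, f.eval t = σ * s * w ^ e) ∧ ∀ p : ℕ, p.Prime → p ∣ s →
        ¬ (p : ℤ) ∣ (derivative f).eval t with hTs
  have hsub : T ⊆ (Finset.Icc (-(S1 : ℤ)) S1 ×ˢ Finset.Icc 1 S2).biUnion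
      fun q => Ts q.1 q.2 := by
    intro t ht
    obtain ⟨htB, h1, s, σ, w, hsq, hs, hσ, h2, h3⟩ := hT t ht
    rw [Finset.mem_biUnion]
    have h4 : σ.natAbs ≤ S1 := Nat.le_floor hσ
    have h5 : s ≤ S2 := Nat.le_floor hs
    have h6 : 1 ≤ s := Nat.one_le_iff_ne_zero.2 hsq.ne_zero
    refine ⟨(σ, s), Finset.mem_product.2 ⟨Finset.mem_Icc.2 ⟨by omega, by omega⟩,
      Finset.mem_Icc.2 ⟨h6, h5⟩⟩, ?_⟩
    rw [hTs, Finset.mem_filter]
    exact ⟨ht, h1, hsq, ⟨w, h2⟩, h3⟩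
  have hbound : ∀ q ∈ Finset.Icc (-(S1 : ℤ)) S1 ×ˢ Finset.Icc 1 S2,
      ((Ts q.1 q.2).card : ℝ) ≤ (Cd ^ k * (B : ℝ) ^ ε) *
        (C1 * ((B : ℝ) / q.2) * (B : ℝ) ^ (-(δ / 4))) := by
    rintro ⟨σ, s⟩ hq
    rw [Finset.mem_product, Finset.mem_Icc, Finset.mem_Icc] at hq
    obtain ⟨hσ, hs1, hs2⟩ := hq
    simp only at hσ hs1 hs2 ⊢
    rcases (Ts σ s).eq_empty_or_nonempty with hemp | ⟨t2, ht2⟩
    · rw [hemp, Finset.card_empty, Nat.cast_zero]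
      positivity
    have hmem : ∀ t ∈ Ts σ s, t ∈ T ∧ f.eval t ≠ 0 ∧
      Squarefree s ∧ (∃ w : ℤ, f.eval t = σ * s * w ^ e) ∧ ∀ p : ℕ, p.Prime → p ∣ s →
        ¬ (p : ℤ) ∣ (derivative f).eval t := fun t ht => Finset.mem_filter.1 ht
    obtain ⟨-, hx2, hsq, ⟨w2, hw2⟩, hcop2⟩ := hmem t2 ht2
    have hσ0 : σ ≠ 0 := by
      rintro rfl
      rw [zero_mul, zero_mul] at hw2
      exact hx2 hw2
    have hsB : (s : ℝ) ≤ (B : ℝ) ^ (1 - δ) := le_trans (by exact_mod_cast hs2) hS2B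
    have h1 := card_classes' f hf.prim s hsq (Ts σ s) (by
      intro t ht
      obtain ⟨-, hne, -, ⟨w, hw⟩, hcop⟩ := hmem t ht
      exact ⟨by rw [hw]; exact ⟨σ * w ^ e, by ring⟩, hcop⟩)
      (C1 * ((B : ℝ) / s) * (B : ℝ) ^ (-(δ / 4))) (by
      intro T' hT' hcl
      set N : ℕ := e * (σ.natAbs * N₀.natAbs) with hN
      have hN1 : 1 ≤ N := Nat.one_le_iff_ne_zero.mpr (by
        rw [hN]
        exact Nat.mul_ne_zero (by omega) (Nat.mul_ne_zero (Int.natAbs_ne_zero.mpr hσ0)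
          (Int.natAbs_ne_zero.mpr hN0)))
      have hNA : N ≤ B ^ A₁ := by
        have h3 : N₀.natAbs ≤ B ^ A' := by
          rw [Int.abs_eq_natAbs] at hNle
          exact_mod_cast hNle
        calc N ≤ B ^ e * (B ^ 1 * B ^ A') := by
              refine Nat.mul_le_mul (hle2 e) (Nat.mul_le_mul ?_ h3)
              rw [pow_one]; omega
          _ = B ^ (e + (1 + A')) := by rw [← pow_add, ← pow_add]
          _ ≤ B ^ A₁ := Nat.pow_le_pow_right (by omega) (by rw [hA₁]; omega)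
      refine hbp B hB2 f hf.deg hf.sep s hs1 hsB σ hσ0 N hN1 hNA T' ?_ hcl ?_
      · intro t ht
        obtain ⟨htT, hne, -, ⟨w, hw⟩, hcop⟩ := hmem t (hT' ht)
        refine ⟨(hT t htT).1, w, ?_, hw⟩
        have h3 : w.natAbs ≤ (f.eval t).natAbs := by
          refine Nat.le_of_dvd (Int.natAbs_pos.mpr hne) (Int.natAbs_dvd_natAbs.mpr ?_)
          rw [hw]
          exact (dvd_pow_self w (by omega)).mul_left _
        have h4 := eval_le k A B hB2 f hf.deg.le hf.ht t (hT t htT).1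
        rw [Int.abs_eq_natAbs] at h4 ⊢
        have h5 : ((f.eval t).natAbs : ℤ) ≤ (B : ℤ) ^ A₁ :=
          h4.trans (pow_le_pow_right₀ (by exact_mod_cast (by omega : 1 ≤ B))
            (by rw [hA₁]; omega))
        exact le_trans (by exact_mod_cast h3) h5
      · intro q hq hqN
        have hq1 : ¬ (q : ℤ) ∣ σ := fun h =>
          hqN (((Int.natCast_dvd.1 h).mul_right _).mul_left _)
        have hq4 : ¬ (q : ℤ) ∣ N₀ := fun h =>
          hqN (((Int.natCast_dvd.1 h).mul_left _).mul_left _)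
        refine ⟨hq1, fun h => hqN (h.mul_right _), ?_⟩
        intro t ht h1 h2
        apply hq4
        have h3 := congrArg (fun p : ℤ[X] => p.eval t) hUV
        simp only [eval_add, eval_mul, eval_C] at h3
        rw [← h3]
        exact dvd_add (h1.mul_right _) (h2.mul_right _))
    rw [hf.deg] at h1
    refine h1.trans (mul_le_mul_of_nonneg_right ?_ (by positivity))
    have h5 : (k : ℝ) ^ s.primeFactors.card ≤ (s.divisors.card : ℝ) ^ k := by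
      exact_mod_cast pow_card_primeFactors_le k s (by omega)
    refine h5.trans ?_
    have h6 := hCd s hs1
    calc (s.divisors.card : ℝ) ^ k ≤ (Cd * (s : ℝ) ^ (ε / k)) ^ k :=
          pow_le_pow_left₀ (by positivity) h6 _
      _ = Cd ^ k * (s : ℝ) ^ ε := by
          rw [mul_pow, ← Real.rpow_natCast ((s : ℝ) ^ (ε / k)), ← Real.rpow_mul (by positivity)]
          congr 2
          field_simp
      _ ≤ Cd ^ k * (B : ℝ) ^ ε := by
          refine mul_le_mul_of_nonneg_left ?_ (by positivity)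
          refine Real.rpow_le_rpow (by positivity) ?_ hε0.le
          exact le_trans (by exact_mod_cast hs2) hS2B'
  have h1 : (T.card : ℝ) ≤ ∑ q ∈ Finset.Icc (-(S1 : ℤ)) S1 ×ˢ Finset.Icc 1 S2,
      ((Ts q.1 q.2).card : ℝ) := by
    exact_mod_cast (Finset.card_le_card hsub).trans Finset.card_biUnion_le
  refine h1.trans ((Finset.sum_le_sum hbound).trans ?_)
  rw [Finset.sum_product]
  simp only
  rw [Finset.sum_const, card_Icc_int, nsmul_eq_mul]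
  have h2 : ∑ s ∈ Finset.Icc 1 S2, (Cd ^ k * (B : ℝ) ^ ε) *
      (C1 * ((B : ℝ) / s) * (B : ℝ) ^ (-(δ / 4))) =
      (Cd ^ k * (B : ℝ) ^ ε) * (C1 * B * (B : ℝ) ^ (-(δ / 4))) *
        ∑ s ∈ Finset.Icc 1 S2, (s : ℝ)⁻¹ := by
    rw [Finset.mul_sum]
    exact Finset.sum_congr rfl fun s _ => by rw [div_eq_mul_inv]; ring
  rw [h2]
  have h3 := VI.sum_inv_le S2 B ε hε0 hB1 hS2B'
  have h4 : (((2 * S1 + 1 : ℕ) : ℝ)) ≤ 3 * (B : ℝ) ^ ε := by
    have : 1 ≤ (B : ℝ) ^ ε := Real.one_le_rpow hB1 hε0.le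
    push_cast
    linarith
  calc ((2 * S1 + 1 : ℕ) : ℝ) * ((Cd ^ k * (B : ℝ) ^ ε) * (C1 * B * (B : ℝ) ^ (-(δ / 4))) *
        ∑ s ∈ Finset.Icc 1 S2, (s : ℝ)⁻¹) ≤
        (3 * (B : ℝ) ^ ε) * ((Cd ^ k * (B : ℝ) ^ ε) * (C1 * B * (B : ℝ) ^ (-(δ / 4))) *
          ((1 + 1 / ε) * (B : ℝ) ^ ε)) := by
        refine mul_le_mul h4 (mul_le_mul_of_nonneg_left h3 (by positivity)) ?_ (by positivity)
        refine mul_nonneg (by positivity) (Finset.sum_nonneg fun s _ => by positivity)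
    _ = 3 * (Cd ^ k * (C1 * (1 + 1 / ε))) * ((B : ℝ) ^ ε * (B : ℝ) ^ ε * (B : ℝ) ^ ε *
          ((B : ℝ) ^ (1 : ℝ) * (B : ℝ) ^ (-(δ / 4)))) := by
        rw [Real.rpow_one]; ring
    _ = _ := by
        rw [← Real.rpow_add hBpos, ← Real.rpow_add hBpos, ← Real.rpow_add hBpos,
          ← Real.rpow_add hBpos]
        congr 2
        rw [hε]
        ring

end Run7.h742.UN
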