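import Mathlib

/-!
# A bounded Bezout identity for integer polynomials (helper742)
-/

set_option autoImplicit false

namespace Run7.h742.UN

open Polynomial

theorem exists_bezout (k g A : ℕ) : ∃ A' : ℕ, ∀ B : ℕ, 2 ≤ B → ∀ f h : ℤ[X], f.natDegree ≤ k →
    h.natDegree ≤ g → (∀ i, |f.coeff i| ≤ (B : ℤ) ^ A) → (∀ i, |h.coeff i| ≤ (B : ℤ) ^ A) →
    IsCoprime (f.map (Int.castRingHom ℚ)) (h.map (Int.castRingHom ℚ)) →
    ∃ N : ℤ, N ≠ 0 ∧ |N| ≤ (B : ℤ) ^ A' ∧ ∃ U V : ℤ[X], f * U + h * V = C N := by
  refine ⟨(k + g).factorial + A * (k + g) + A, fun B hB f h hf hg hfA hhA hcop => ?_⟩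
  have hB1 : (1 : ℤ) ≤ B := by exact_mod_cast (by omega : 1 ≤ B)
  have hle : (B : ℤ) ^ A ≤ (B : ℤ) ^ ((k + g).factorial + A * (k + g) + A) :=
    pow_le_pow_right₀ hB1 (by omega)
  by_cases h0 : f.natDegree ≠ 0 ∨ h.natDegree ≠ 0
  · obtain ⟨U, V, -, -, hUV⟩ := exists_mul_add_mul_eq_C_resultant f h le_rfl le_rfl h0
    refine ⟨f.resultant h, ?_, ?_, U, V, hUV⟩
    · intro hr
      have h1 := resultant_ne_zero _ _ hcop
      apply h1
      rw [natDegree_map_eq_of_injective Int.cast_injective,
        natDegree_map_eq_of_injective Int.cast_injective, resultant_map_map, hr, map_zero]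
    · have h1 : ∀ i j, IsAbsoluteValue.toAbsoluteValue (abs : ℤ → ℤ)
          (sylvester f h f.natDegree h.natDegree i j) ≤ (B : ℤ) ^ A := by
        intro i j
        show |sylvester f h f.natDegree h.natDegree i j| ≤ _
        unfold sylvester
        rw [Matrix.of_apply]
        refine Fin.addCases (fun j => ?_) (fun j => ?_) j
        · rw [Fin.addCases_left]
          split_ifs
          · exact hhA _
          · rw [abs_zero]; positivity
        · rw [Fin.addCases_right]
          split_ifs
          · exact hfA _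
          · rw [abs_zero]; positivity
      have h2 := Matrix.det_le h1
      have h3 : |f.resultant h| ≤ ((f.natDegree + h.natDegree).factorial : ℤ) *
          ((B : ℤ) ^ A) ^ (f.natDegree + h.natDegree) := by
        have h4 : IsAbsoluteValue.toAbsoluteValue (abs : ℤ → ℤ)
            (sylvester f h f.natDegree h.natDegree).det = |f.resultant h| := rfl
        rw [h4, Fintype.card_fin, nsmul_eq_mul] at h2
        exact_mod_cast h2
      refine h3.trans ?_
      have h5 : ((f.natDegree + h.natDegree).factorial : ℤ) ≤ (B : ℤ) ^ (k + g).factorial := by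
        have h6 : (f.natDegree + h.natDegree).factorial ≤ (k + g).factorial :=
          Nat.factorial_le (by omega)
        have h7 : (k + g).factorial ≤ B ^ (k + g).factorial :=
          Nat.lt_two_pow_self.le.trans (Nat.pow_le_pow_left hB _)
        exact_mod_cast h6.trans h7
      have h8 : ((B : ℤ) ^ A) ^ (f.natDegree + h.natDegree) ≤ (B : ℤ) ^ (A * (k + g)) := by
        rw [← pow_mul]
        exact pow_le_pow_right₀ hB1 (Nat.mul_le_mul_left A (by omega))
      calc ((f.natDegree + h.natDegree).factorial : ℤ) *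
            ((B : ℤ) ^ A) ^ (f.natDegree + h.natDegree) ≤
            (B : ℤ) ^ (k + g).factorial * (B : ℤ) ^ (A * (k + g)) :=
            mul_le_mul h5 h8 (by positivity) (by positivity)
        _ = (B : ℤ) ^ ((k + g).factorial + A * (k + g)) := by rw [pow_add]
        _ ≤ _ := pow_le_pow_right₀ hB1 (by omega)
  · push Not at h0
    obtain ⟨hf0, hh0⟩ := h0
    rw [eq_C_of_natDegree_eq_zero hf0, eq_C_of_natDegree_eq_zero hh0]
    by_cases hfc : f.coeff 0 = 0
    · have hhc : h.coeff 0 ≠ 0 := by
        intro hhc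
        rw [eq_C_of_natDegree_eq_zero hf0, eq_C_of_natDegree_eq_zero hh0, hfc, hhc] at hcop
        obtain ⟨u, v, huv⟩ := hcop
        simp at huv
      exact ⟨h.coeff 0, hhc, (hhA 0).trans hle, 0, 1, by simp⟩
    · exact ⟨f.coeff 0, hfc, (hfA 0).trans hle, 1, 0, by simp⟩

end Run7.h742.UN
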