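import Pool.Agent.Run7.h742.UN.Base
import Pool.Agent.Run7.h742.UN.Res

/-!
# Small values, divisors with a small radical, squares, common factors: uniformly in the polynomial
# (helper742)
-/

set_option autoImplicit false

namespace Run7.h742.UN

open Polynomial Pool.Agent.TH910.Voj Pool.Agent.H813R3.Voj Pool.Agent.N445.VW

theorem us_small_value (k A : ℕ) (hk1 : 1 ≤ k) {ε : ℝ} (hε : 0 < ε) (hε1 : ε ≤ 1) :
    US (Cl k A) (fun B f t => f.eval t ≠ 0 ∧
      ((f.eval t).natAbs : ℝ) ≤ (B : ℝ) ^ ((k : ℝ) - ε)) := by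
  have hkR : (1 : ℝ) ≤ k := by exact_mod_cast hk1
  have hkpos : (0 : ℝ) < k := by linarith
  refine ⟨ε / k, by positivity, k * 3, by positivity, ?_⟩
  intro B hB f hf T hT
  have hB1 : (1 : ℝ) ≤ B := by exact_mod_cast (by omega : 1 ≤ B)
  have hBpos : (0 : ℝ) < B := by linarith
  set β : ℝ := (B : ℝ) ^ (1 - ε / k) with hβ
  have hβ1 : 1 ≤ β := by
    refine Real.one_le_rpow hB1 ?_
    have : ε / k ≤ 1 := by rw [div_le_one hkpos]; linarith
    linarith
  have hfk : f.coeff k ≠ 0 := by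
    rw [← hf.deg]
    exact leadingCoeff_ne_zero.2 hf.prim.ne_zero
  refine (card_small_values f hk1 hf.deg.le hfk β (by positivity) T ?_).trans ?_
  · intro t ht
    have h1 : β ^ k = (B : ℝ) ^ ((k : ℝ) - ε) := by
      rw [hβ, ← Real.rpow_natCast, ← Real.rpow_mul hBpos.le]
      congr 1
      field_simp
    rw [h1]
    have h2 := (hT t ht).2.2
    rwa [Nat.cast_natAbs, Int.cast_abs] at h2
  · nlinarith

/-- **Divisors with a small radical.** -/
theorem us_sing (k A : ℕ) (hk1 : 1 ≤ k) {ε : ℝ} (hε : 0 < ε) (hε1 : ε ≤ 1) :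
    ∃ η : ℝ, 0 < η ∧ US (Cl k A) (fun B f t => f.eval t ≠ 0 ∧
      ∃ d : ℕ, (d : ℤ) ∣ f.eval t ∧ (B : ℝ) ^ ε < d ∧ (rd d : ℝ) ≤ (B : ℝ) ^ η) := by
  classical
  set E := (k + 1) * (k + 1) with hE
  have hE0 : (0 : ℝ) < E := by rw [hE]; positivity
  have hE1 : (1 : ℝ) ≤ E := by
    have : 1 ≤ E := by rw [hE]; nlinarith
    exact_mod_cast this
  have hk0 : (0 : ℝ) < k := by exact_mod_cast hk1
  set Q : ℕ := A + 2 * k + 1 with hQ
  have hQ0 : (0 : ℝ) < Q := by rw [hQ]; positivity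
  set e : ℝ := ε / (4 * E) with he
  have he0 : 0 < e := by positivity
  set δ : ℝ := e / (2 * Q) with hδ
  have hδ0 : 0 < δ := by positivity
  obtain ⟨Cr, hCr0, hCr⟩ := card_small_rad hδ0
  refine ⟨e / 2, by positivity, e, he0, Cr * (5 * k + 1), by positivity, ?_⟩
  intro B hB f hf T hT
  have hB1 : (1 : ℝ) ≤ B := by exact_mod_cast (by omega : 1 ≤ B)
  have hBpos : (0 : ℝ) < B := by linarith
  set L : ℝ := (B : ℝ) ^ (ε / (2 * E)) with hL
  have hL1 : 1 ≤ L := Real.one_le_rpow hB1 (by positivity)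
  obtain ⟨hℓ1, hℓ2, hℓ3⟩ := floor_bounds hL1
  set ℓ := ⌊L⌋₊ with hℓ
  set N := B ^ Q with hN
  have hN1 : 1 ≤ N := Nat.one_le_iff_ne_zero.mpr (pow_ne_zero _ (by omega))
  set V := (Finset.Icc (-(N : ℤ)) N).filter fun v => v ≠ 0 ∧
    (rd v.natAbs : ℝ) ≤ (B : ℝ) ^ (e / 2) with hV
  set W := V.filter (fun v => (B : ℝ) ^ ε < v.natAbs ∧ 0 < v) with hW
  have hlt : ∀ d : ℕ, (B : ℝ) ^ ε < d → ℓ ^ E < d := by
    intro d hd
    have h3 : ((ℓ ^ E : ℕ) : ℝ) ≤ (B : ℝ) ^ ε := by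
      push_cast
      calc (ℓ : ℝ) ^ E ≤ L ^ E := pow_le_pow_left₀ (by positivity) hℓ2 _
        _ = (B : ℝ) ^ (ε / 2) := by
            rw [hL, ← Real.rpow_natCast, ← Real.rpow_mul hBpos.le]
            congr 1
            field_simp
        _ ≤ (B : ℝ) ^ ε := Real.rpow_le_rpow_of_exponent_le hB1 (by linarith)
    exact_mod_cast lt_of_le_of_lt h3 hd
  have hsub : T ⊆ W.biUnion fun v => (Finset.Icc (-(B : ℤ)) B).filter
      fun t => ((v.natAbs : ℕ) : ℤ) ∣ f.eval t := by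
    intro t ht
    obtain ⟨htB, hne, d, hd1, hd2, hd3⟩ := hT t ht
    rw [Finset.mem_biUnion]
    have hd0 : 0 < d := by
      rcases Nat.eq_zero_or_pos d with h0 | h0
      · subst h0
        exfalso
        apply hne
        simpa using hd1
      · exact h0
    refine ⟨(d : ℤ), ?_, ?_⟩
    · rw [hW, Finset.mem_filter, hV, Finset.mem_filter, Finset.mem_Icc, Int.natAbs_natCast]
      have h1 : d ≤ (f.eval t).natAbs :=
        Nat.le_of_dvd (Int.natAbs_pos.mpr hne) (Int.natCast_dvd.mp hd1)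
      have h2 := eval_le k A B hB f hf.deg.le hf.ht t htB
      rw [Int.abs_eq_natAbs] at h2
      have h3 : (f.eval t).natAbs ≤ N := by rw [hN]; exact_mod_cast h2
      refine ⟨⟨⟨by omega, by omega⟩, by omega, hd3⟩, hd2, by omega⟩
    · rw [Finset.mem_filter, Finset.mem_Icc, ← abs_le, Int.natAbs_natCast]
      exact ⟨htB, hd1⟩
  have hcard : T.card ≤ W.card * (k * (2 * B / ℓ + 1)) := by
    refine (Finset.card_le_card hsub).trans (Finset.card_biUnion_le_card_mul _ _ _ ?_)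
    intro v hv
    rw [hW, Finset.mem_filter] at hv
    exact card_roots_mod_le' f k hf.deg.le hf.prim v.natAbs ℓ hℓ1 (hlt _ hv.2.1) B
  have h2 : ((k * (2 * B / ℓ + 1) : ℕ) : ℝ) ≤ (5 * k + 1) * (B : ℝ) ^ (1 - 2 * e) := by
    have hBe : (1 : ℝ) ≤ (B : ℝ) ^ (1 - 2 * e) := by
      refine Real.one_le_rpow hB1 ?_
      rw [he]
      have : 2 * (ε / (4 * E)) ≤ 1 := by
        rw [← mul_div_assoc, div_le_one (by positivity)]
        nlinarith
      linarith
    have h3 : ((2 * B / ℓ : ℕ) : ℝ) ≤ 4 * (B : ℝ) ^ (1 - 2 * e) := by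
      refine (Nat.cast_div_le).trans ?_
      push_cast
      have hℓ0 : (0 : ℝ) < ℓ := by exact_mod_cast hℓ1
      rw [div_le_iff₀ hℓ0]
      have h4 : (B : ℝ) = (B : ℝ) ^ (1 - 2 * e) * L := by
        rw [hL, ← Real.rpow_add hBpos, he]
        have : 1 - 2 * (ε / (4 * E)) + ε / (2 * E) = 1 := by
          field_simp
          ring
        rw [this, Real.rpow_one]
      calc 2 * (B : ℝ) = 2 * ((B : ℝ) ^ (1 - 2 * e) * L) := by rw [← h4]
        _ ≤ 2 * ((B : ℝ) ^ (1 - 2 * e) * (2 * ℓ)) := by gcongr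
        _ = _ := by ring
    push_cast at h3 ⊢
    nlinarith
  have h3 : (W.card : ℝ) ≤ Cr * (B : ℝ) ^ e := by
    have h4 : (W.card : ℝ) ≤ V.card := by exact_mod_cast Finset.card_filter_le _ _
    refine h4.trans ((hCr N hN1 _ (by positivity)).trans ?_)
    have h6 : (N : ℝ) ^ δ = (B : ℝ) ^ (e / 2) := by
      rw [hN]
      push_cast
      rw [← Real.rpow_natCast, ← Real.rpow_mul hBpos.le]
      congr 1
      rw [hδ]; field_simp
    rw [h6, mul_assoc, ← Real.rpow_add hBpos]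
    exact le_of_eq (by congr 2; ring)
  have h5 : (T.card : ℝ) ≤ W.card * ((k * (2 * B / ℓ + 1) : ℕ) : ℝ) := by exact_mod_cast hcard
  calc (T.card : ℝ) ≤ W.card * ((k * (2 * B / ℓ + 1) : ℕ) : ℝ) := h5
    _ ≤ (Cr * (B : ℝ) ^ e) * ((5 * k + 1) * (B : ℝ) ^ (1 - 2 * e)) :=
        mul_le_mul h3 h2 (by positivity) (by positivity)
    _ = (Cr * (5 * k + 1)) * ((B : ℝ) ^ e * (B : ℝ) ^ (1 - 2 * e)) := by ring
    _ = _ := by
        rw [← Real.rpow_add hBpos]
        congr 2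
        ring

/-- **Squares prime to the derivative.** -/
theorem us_square (k A : ℕ) (hk1 : 1 ≤ k) {ε δ : ℝ} (hε : 0 < ε) (hδ : 0 < δ) (hδ1 : δ ≤ 1) :
    US (Cl k A) (fun B f t => ∃ m : ℕ, (B : ℝ) ^ ε < m ∧ (m : ℝ) ≤ (B : ℝ) ^ (1 - δ) ∧
      (m : ℤ) ^ 2 ∣ f.eval t ∧ ∀ p : ℕ, p.Prime → p ∣ m →
        ¬ (p : ℤ) ∣ (derivative f).eval t) := by
  classical
  have hk0 : (0 : ℝ) < k := by exact_mod_cast hk1
  set e : ℝ := min ε δ / 2 with he
  have he0 : 0 < e := by have := lt_min hε hδ; positivity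
  have heε : 2 * e ≤ ε := by rw [he]; linarith [min_le_left ε δ]
  have heδ : 2 * e ≤ δ := by rw [he]; linarith [min_le_right ε δ]
  obtain ⟨Cd, hCd0, hCd⟩ := Pool.Agent.H510R2.divisor_bound (e / k) (by positivity)
  refine ⟨e, he0, 5 * Cd ^ k, by positivity, ?_⟩
  intro B hB f hf T hT
  have hB1 : (1 : ℝ) ≤ B := by exact_mod_cast (by omega : 1 ≤ B)
  have hBpos : (0 : ℝ) < B := by linarith
  obtain ⟨hM1, hM2, hM3⟩ := floor_bounds (Real.one_le_rpow hB1 hε.le)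
  set M0 := ⌊(B : ℝ) ^ ε⌋₊ with hM0
  set M1 := ⌊(B : ℝ) ^ (1 - δ)⌋₊ with hM1'
  have hM1B : (M1 : ℝ) ≤ (B : ℝ) ^ (1 - δ) := Nat.floor_le (by positivity)
  have hfib : ∀ t ∈ T, ∃ m : ℕ, M0 < m ∧ m ≤ M1 ∧ (m : ℤ) ^ 2 ∣ f.eval t ∧
      ∀ p : ℕ, p.Prime → p ∣ m → ¬ (p : ℤ) ∣ (Polynomial.derivative f).eval t := by
    intro t ht
    obtain ⟨htB, m, h1, h2, h3, h4⟩ := hT t ht
    refine ⟨m, ?_, Nat.le_floor h2, h3, h4⟩
    rw [hM0, Nat.floor_lt (by positivity)]; exact h1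
  by_cases hMM : M0 ≤ M1
  swap
  · have : T = ∅ := by
      rw [Finset.eq_empty_iff_forall_notMem]
      intro t ht
      obtain ⟨m, h1, h2, -⟩ := hfib t ht
      omega
    rw [this, Finset.card_empty, Nat.cast_zero]
    positivity
  have hsub : T ⊆ (Finset.Ioc M0 M1).biUnion fun m => T.filter fun t => (m : ℤ) ^ 2 ∣ f.eval t ∧
      ∀ p : ℕ, p.Prime → p ∣ m → ¬ (p : ℤ) ∣ (Polynomial.derivative f).eval t := by
    intro t ht
    obtain ⟨m, h1, h2, h3, h4⟩ := hfib t ht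
    rw [Finset.mem_biUnion]
    exact ⟨m, Finset.mem_Ioc.2 ⟨h1, h2⟩, Finset.mem_filter.2 ⟨ht, h3, h4⟩⟩
  have hBe0 : 0 ≤ Cd ^ k * (B : ℝ) ^ e := by positivity
  have h1 : (T.card : ℝ) ≤ ∑ m ∈ Finset.Ioc M0 M1,
      (Cd ^ k * (B : ℝ) ^ e) * (2 * (B : ℝ) / (m : ℝ) ^ 2 + 1) := by
    have h2 : (T.card : ℝ) ≤ ∑ m ∈ Finset.Ioc M0 M1, ((T.filter fun t => (m : ℤ) ^ 2 ∣ f.eval t ∧
      ∀ p : ℕ, p.Prime → p ∣ m → ¬ (p : ℤ) ∣ (Polynomial.derivative f).eval t).card : ℝ) := by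
      have := (Finset.card_le_card hsub).trans Finset.card_biUnion_le
      exact_mod_cast this
    refine h2.trans (Finset.sum_le_sum fun m hm => ?_)
    rw [Finset.mem_Ioc] at hm
    have hm1 : 1 ≤ m := by omega
    have h3 := card_sq' f hf.prim m hm1 B (T.filter fun t => (m : ℤ) ^ 2 ∣ f.eval t ∧
      ∀ p : ℕ, p.Prime → p ∣ m → ¬ (p : ℤ) ∣ (Polynomial.derivative f).eval t) (by
      intro t ht
      rw [Finset.mem_filter] at ht
      exact ⟨(hT t ht.1).1, ht.2.1, ht.2.2⟩)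
    rw [hf.deg] at h3
    have h4 : ((T.filter fun t => (m : ℤ) ^ 2 ∣ f.eval t ∧
      ∀ p : ℕ, p.Prime → p ∣ m → ¬ (p : ℤ) ∣ (Polynomial.derivative f).eval t).card : ℝ) ≤
        ((k ^ m.primeFactors.card : ℕ) : ℝ) * ((2 * B / m ^ 2 + 1 : ℕ) : ℝ) := by
      exact_mod_cast h3
    refine h4.trans (mul_le_mul ?_ ?_ (by positivity) hBe0)
    · have h5 : ((k ^ m.primeFactors.card : ℕ) : ℝ) ≤ (m.divisors.card : ℝ) ^ k := by
        exact_mod_cast pow_card_primeFactors_le k m (by omega)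
      refine h5.trans ?_
      have h6 := hCd m hm1
      calc (m.divisors.card : ℝ) ^ k ≤ (Cd * (m : ℝ) ^ (e / k)) ^ k :=
            pow_le_pow_left₀ (by positivity) h6 _
        _ = Cd ^ k * (m : ℝ) ^ e := by
            rw [mul_pow, ← Real.rpow_natCast ((m : ℝ) ^ (e / k)), ← Real.rpow_mul (by positivity)]
            congr 2
            field_simp
        _ ≤ Cd ^ k * (B : ℝ) ^ e := by
            refine mul_le_mul_of_nonneg_left ?_ (by positivity)
            refine Real.rpow_le_rpow (by positivity) ?_ he0.le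
            have h7 : (m : ℝ) ≤ M1 := by exact_mod_cast hm.2
            have h8 : (B : ℝ) ^ (1 - δ) ≤ (B : ℝ) ^ (1 : ℝ) :=
              Real.rpow_le_rpow_of_exponent_le hB1 (by linarith)
            rw [Real.rpow_one] at h8
            linarith
    · push_cast
      have h5 : ((2 * B / m ^ 2 : ℕ) : ℝ) ≤ 2 * (B : ℝ) / (m : ℝ) ^ 2 := by
        refine Nat.cast_div_le.trans ?_
        push_cast
        exact le_rfl
      push_cast at h5
      linarith
  refine h1.trans ?_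
  rw [← Finset.mul_sum]
  have h2 : ∑ m ∈ Finset.Ioc M0 M1, (2 * (B : ℝ) / (m : ℝ) ^ 2 + 1) ≤ 5 * (B : ℝ) ^ (1 - 2 * e) := by
    refine (sum_squares_le (B : ℝ) hBpos.le M0 M1 hM1 hMM).trans ?_
    have hM0pos : (0 : ℝ) < M0 := by exact_mod_cast hM1
    have h3 : 2 * (B : ℝ) / M0 ≤ 4 * (B : ℝ) ^ (1 - 2 * e) := by
      rw [div_le_iff₀ hM0pos]
      have h4 : (B : ℝ) ≤ (B : ℝ) ^ (1 - 2 * e) * (B : ℝ) ^ ε := by
        rw [← Real.rpow_add hBpos]
        conv_lhs => rw [← Real.rpow_one (B : ℝ)]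
        exact Real.rpow_le_rpow_of_exponent_le hB1 (by linarith)
      have h5 : (B : ℝ) ^ (1 - 2 * e) * (B : ℝ) ^ ε ≤ (B : ℝ) ^ (1 - 2 * e) * (2 * M0) :=
        mul_le_mul_of_nonneg_left hM3 (by positivity)
      nlinarith
    have h4 : (M1 : ℝ) ≤ (B : ℝ) ^ (1 - 2 * e) :=
      hM1B.trans (Real.rpow_le_rpow_of_exponent_le hB1 (by linarith))
    linarith
  calc (Cd ^ k * (B : ℝ) ^ e) * ∑ m ∈ Finset.Ioc M0 M1, (2 * (B : ℝ) / (m : ℝ) ^ 2 + 1) ≤
        (Cd ^ k * (B : ℝ) ^ e) * (5 * (B : ℝ) ^ (1 - 2 * e)) :=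
        mul_le_mul_of_nonneg_left h2 hBe0
    _ = (5 * Cd ^ k) * ((B : ℝ) ^ e * (B : ℝ) ^ (1 - 2 * e)) := by ring
    _ = _ := by
        rw [← Real.rpow_add hBpos]
        congr 2
        ring

/-- pairs of coprime polynomials, the first one primitive -/
structure Cl2 (k g A B : ℕ) (q : ℤ[X] × ℤ[X]) : Prop where
  deg : q.1.natDegree ≤ k
  prim : q.1.IsPrimitive
  ht : ∀ i, |q.1.coeff i| ≤ (B : ℤ) ^ A
  deg2 : q.2.natDegree ≤ g
  ht2 : ∀ i, |q.2.coeff i| ≤ (B : ℤ) ^ A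
  cop : IsCoprime (q.1.map (Int.castRingHom ℚ)) (q.2.map (Int.castRingHom ℚ))

/-- The values of two coprime polynomials have few common prime factors. -/
theorem us_gcd (k g A : ℕ) {η : ℝ} (hη : 0 < η) :
    US (Cl2 k g A) (fun B q t => q.1.eval t ≠ 0 ∧
      (B : ℝ) ^ η < rd (Int.gcd (q.1.eval t) (q.2.eval t))) := by
  classical
  wlog hη1 : η ≤ 1 generalizing η with hw
  · refine (hw (η := 1) one_pos le_rfl).mono ?_
    rintro B q t hB - - ⟨h1, h2⟩
    refine ⟨h1, lt_of_le_of_lt ?_ h2⟩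
    have hB1 : (1 : ℝ) ≤ B := by exact_mod_cast (by omega : 1 ≤ B)
    exact Real.rpow_le_rpow_of_exponent_le hB1 (by linarith)
  obtain ⟨A', hA'⟩ := exists_bezout k g A
  set E := (k + 1) * (k + 1) with hE
  have hE0 : (0 : ℝ) < E := by rw [hE]; positivity
  have hE1 : (1 : ℝ) ≤ E := by
    have : 1 ≤ E := by rw [hE]; nlinarith
    exact_mod_cast this
  set δ : ℝ := η / (4 * E * (A' + 1)) with hδ
  have hδ0 : 0 < δ := by positivity
  obtain ⟨Cd, hCd0, hCd⟩ := Pool.Agent.H510R2.divisor_bound δ hδ0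
  set e : ℝ := η / (4 * E) with he
  have he0 : 0 < e := by positivity
  refine ⟨e, he0, Cd * (5 * k + 1), by positivity, ?_⟩
  intro B hB q hq T hT
  have hB1 : (1 : ℝ) ≤ B := by exact_mod_cast (by omega : 1 ≤ B)
  have hBpos : (0 : ℝ) < B := by linarith
  obtain ⟨f, h⟩ := q
  obtain ⟨N, hN0, hNle, U, V, hUV⟩ := hA' B hB f h hq.deg hq.deg2 hq.ht hq.ht2 hq.cop
  simp only at hT
  set L : ℝ := (B : ℝ) ^ (η / (2 * E)) with hL
  have hL1 : 1 ≤ L := Real.one_le_rpow hB1 (by positivity)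
  obtain ⟨hℓ1, hℓ2, hℓ3⟩ := floor_bounds hL1
  set ℓ := ⌊L⌋₊ with hℓ
  have hlt : ∀ d : ℕ, (B : ℝ) ^ η < d → ℓ ^ E < d := by
    intro d hd
    have h3 : ((ℓ ^ E : ℕ) : ℝ) ≤ (B : ℝ) ^ η := by
      push_cast
      calc (ℓ : ℝ) ^ E ≤ L ^ E := pow_le_pow_left₀ (by positivity) hℓ2 _
        _ = (B : ℝ) ^ (η / 2) := by
            rw [hL, ← Real.rpow_natCast, ← Real.rpow_mul hBpos.le]
            congr 1
            field_simp
        _ ≤ (B : ℝ) ^ η := Real.rpow_le_rpow_of_exponent_le hB1 (by linarith)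
    exact_mod_cast lt_of_le_of_lt h3 hd
  set W := (N.natAbs.divisors).filter (fun d : ℕ => (B : ℝ) ^ η < d) with hW
  have hsub : T ⊆ W.biUnion fun v => (Finset.Icc (-(B : ℤ)) B).filter
      fun t => ((v : ℕ) : ℤ) ∣ f.eval t := by
    intro t ht
    obtain ⟨htB, hne, hd⟩ := hT t ht
    have h1 : ((rd (Int.gcd (f.eval t) (h.eval t)) : ℕ) : ℤ) ∣
        (Int.gcd (f.eval t) (h.eval t) : ℕ) := by exact_mod_cast rd_dvd _
    rw [Finset.mem_biUnion]
    refine ⟨rd (Int.gcd (f.eval t) (h.eval t)), ?_, ?_⟩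
    · rw [hW, Finset.mem_filter, Nat.mem_divisors]
      refine ⟨⟨?_, Int.natAbs_ne_zero.mpr hN0⟩, hd⟩
      rw [← Int.natCast_dvd]
      have h2 := congrArg (fun p : ℤ[X] => p.eval t) hUV
      simp only [eval_add, eval_mul, eval_C] at h2
      rw [← h2]
      refine dvd_add ?_ ?_
      · exact (h1.trans (Int.gcd_dvd_left _ _)).mul_right _
      · exact (h1.trans (Int.gcd_dvd_right _ _)).mul_right _
    · rw [Finset.mem_filter, Finset.mem_Icc, ← abs_le]
      exact ⟨htB, h1.trans (Int.gcd_dvd_left _ _)⟩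
  have hcard : T.card ≤ W.card * (k * (2 * B / ℓ + 1)) := by
    refine (Finset.card_le_card hsub).trans (Finset.card_biUnion_le_card_mul _ _ _ ?_)
    intro v hv
    rw [hW, Finset.mem_filter] at hv
    exact card_roots_mod_le' f k hq.deg hq.prim v ℓ hℓ1 (hlt _ hv.2) B
  have h2 : ((k * (2 * B / ℓ + 1) : ℕ) : ℝ) ≤ (5 * k + 1) * (B : ℝ) ^ (1 - 2 * e) := by
    have hBe : (1 : ℝ) ≤ (B : ℝ) ^ (1 - 2 * e) := by
      refine Real.one_le_rpow hB1 ?_
      rw [he]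
      have : 2 * (η / (4 * E)) ≤ 1 := by
        rw [← mul_div_assoc, div_le_one (by positivity)]
        nlinarith
      linarith
    have h3 : ((2 * B / ℓ : ℕ) : ℝ) ≤ 4 * (B : ℝ) ^ (1 - 2 * e) := by
      refine (Nat.cast_div_le).trans ?_
      push_cast
      have hℓ0 : (0 : ℝ) < ℓ := by exact_mod_cast hℓ1
      rw [div_le_iff₀ hℓ0]
      have h4 : (B : ℝ) = (B : ℝ) ^ (1 - 2 * e) * L := by
        rw [hL, ← Real.rpow_add hBpos, he]
        have : 1 - 2 * (η / (4 * E)) + η / (2 * E) = 1 := by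
          field_simp
          ring
        rw [this, Real.rpow_one]
      calc 2 * (B : ℝ) = 2 * ((B : ℝ) ^ (1 - 2 * e) * L) := by rw [← h4]
        _ ≤ 2 * ((B : ℝ) ^ (1 - 2 * e) * (2 * ℓ)) := by gcongr
        _ = _ := by ring
    push_cast at h3 ⊢
    have hk0 : (0 : ℝ) ≤ k := Nat.cast_nonneg k
    nlinarith
  have h3 : (W.card : ℝ) ≤ Cd * (B : ℝ) ^ e := by
    have h4 : (W.card : ℝ) ≤ (N.natAbs.divisors.card : ℝ) := by
      exact_mod_cast Finset.card_filter_le _ _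
    refine h4.trans ?_
    have h9 : 1 ≤ N.natAbs := Int.natAbs_pos.mpr hN0
    refine (hCd _ h9).trans ?_
    refine mul_le_mul_of_nonneg_left ?_ hCd0.le
    have h10 : (N.natAbs : ℝ) ≤ (B : ℝ) ^ A' := by
      rw [Int.abs_eq_natAbs] at hNle
      exact_mod_cast hNle
    calc (N.natAbs : ℝ) ^ δ ≤ ((B : ℝ) ^ A') ^ δ :=
          Real.rpow_le_rpow (by positivity) h10 hδ0.le
      _ ≤ (B : ℝ) ^ e := by
          rw [← Real.rpow_natCast, ← Real.rpow_mul hBpos.le]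
          refine Real.rpow_le_rpow_of_exponent_le hB1 ?_
          rw [hδ, he, ← mul_div_assoc, div_le_div_iff₀ (by positivity) (by positivity)]
          have hD0 : (0 : ℝ) ≤ A' := Nat.cast_nonneg A'
          nlinarith [mul_pos hη hE0]
  have h5 : (T.card : ℝ) ≤ W.card * ((k * (2 * B / ℓ + 1) : ℕ) : ℝ) := by exact_mod_cast hcard
  calc (T.card : ℝ) ≤ W.card * ((k * (2 * B / ℓ + 1) : ℕ) : ℝ) := h5
    _ ≤ (Cd * (B : ℝ) ^ e) * ((5 * k + 1) * (B : ℝ) ^ (1 - 2 * e)) :=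
        mul_le_mul h3 h2 (by positivity) (by positivity)
    _ = (Cd * (5 * k + 1)) * ((B : ℝ) ^ e * (B : ℝ) ^ (1 - 2 * e)) := by ring
    _ = _ := by
        rw [← Real.rpow_add hBpos]
        congr 2
        ring

/-- the pair of a polynomial of the class and its derivative -/
theorem cl2_deriv (k A B : ℕ) (hB : 2 ≤ B) (f : ℤ[X]) (hf : Cl k A B f) :
    Cl2 k k (A + k) B (f, derivative f) where
  deg := hf.deg.le
  prim := hf.prim
  ht i := (hf.ht i).trans (pow_le_pow_right₀ (by exact_mod_cast (by omega : 1 ≤ B)) (by omega))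
  deg2 := (natDegree_derivative_le f).trans (by rw [hf.deg]; omega)
  ht2 i := by
    show |(derivative f).coeff i| ≤ _
    rw [coeff_derivative]
    by_cases hi : i + 1 ≤ k
    · rw [abs_mul, pow_add]
      refine mul_le_mul (hf.ht _) ?_ (abs_nonneg _) (by positivity)
      have h1 : i + 1 ≤ B ^ k := hi.trans
        (Nat.lt_two_pow_self.le.trans (Nat.pow_le_pow_left hB k))
      rw [abs_of_nonneg (by positivity)]
      exact_mod_cast h1
    · rw [coeff_eq_zero_of_natDegree_lt (by rw [hf.deg]; omega), zero_mul, abs_zero]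
      positivity
  cop := by
    show IsCoprime (f.map _) ((derivative f).map _)
    rw [← derivative_map]
    exact hf.sep

end Run7.h742.UN
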